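import Pool.Agent.Helper82.NR.Var

/-!
# NS: sums over the scales `K / q ^ (a + i)`, sharp constants
-/

set_option autoImplicit false
open MeasureTheory Set Filter Topology
open Pool.Agent.Helper57.TX

namespace Pool.Agent.Helper82.NS

open Pool.Agent.Helper64.TX (mem_QX)
open Pool.Agent.Helper7.UV (mert_window)
open Pool.Agent.Helper82.NR (rc rs_bd rc_nonneg)

/-- the primitive of `(1 - y)_+ ^ 2` -/
noncomputable def Hh (y : ℝ) : ℝ := (1 - (max 0 (1 - y)) ^ 3) / 3

lemma Hh_le (y : ℝ) : Hh y ≤ 1 / 3 := by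
  unfold Hh
  have : 0 ≤ (max 0 (1 - y)) ^ 3 := pow_nonneg (le_max_left _ _) 3
  linarith

lemma Hh_nonneg {y : ℝ} (hy : 0 ≤ y) : 0 ≤ Hh y := by
  unfold Hh
  have : (max 0 (1 - y)) ^ 3 ≤ 1 := pow_le_one₀ (le_max_left _ _) (max_le (by norm_num) (by linarith))
  linarith

lemma Hh_mono {x y : ℝ} (h : x ≤ y) : Hh x ≤ Hh y := by
  unfold Hh
  have : (max 0 (1 - y)) ^ 3 ≤ (max 0 (1 - x)) ^ 3 :=
    pow_le_pow_left₀ (le_max_left _ _) (max_le_max le_rfl (by linarith)) 3
  linarith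

/-- comparison with the integral, from above -/
lemma tel_up {q y : ℝ} (hq : 1 < q) (hy : 0 ≤ y) : y * (max 0 (1 - y)) ^ 2 ≤ q / (q - 1) * (Hh y - Hh (y / q)) := by
  have hq1 : 0 < q - 1 := by linarith
  have hq0 : 0 < q := by linarith
  have hyq : y / q ≤ y := div_le_self hy hq.le
  rcases le_or_gt y 1 with h | h
  · have e1 : max 0 (1 - y) = 1 - y := max_eq_right (by linarith)
    have e2 : max 0 (1 - y / q) = 1 - y / q := max_eq_right (by linarith)
    have h1 : 3 * (1 - y) ^ 2 * (y - y / q) ≤ (1 - y / q) ^ 3 - (1 - y) ^ 3 := by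
      have g1 : 0 ≤ 1 - y := by linarith
      have g2 : 0 ≤ y - y / q := by linarith
      have : (1 - y / q) ^ 3 - (1 - y) ^ 3 - 3 * (1 - y) ^ 2 * (y - y / q) =
          (y - y / q) ^ 2 * ((1 - y / q) + 2 * (1 - y)) := by ring
      have g3 : 0 ≤ (y - y / q) ^ 2 * ((1 - y / q) + 2 * (1 - y)) :=
        mul_nonneg (sq_nonneg _) (by linarith)
      linarith
    unfold Hh
    rw [e1, e2, div_mul_eq_mul_div, le_div_iff₀ hq1]
    have h2 : y * (q - 1) = q * (y - y / q) := by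
      field_simp
    calc y * (1 - y) ^ 2 * (q - 1) = (1 - y) ^ 2 * (y * (q - 1)) := by ring
      _ = q * ((1 - y) ^ 2 * (y - y / q)) := by rw [h2]; ring
      _ ≤ q * ((1 - (1 - y) ^ 3) / 3 - (1 - (1 - y / q) ^ 3) / 3) := by
          refine mul_le_mul_of_nonneg_left ?_ hq0.le
          linarith
  · have e1 : max 0 (1 - y) = 0 := max_eq_left (by linarith)
    rw [e1]
    have := Hh_mono hyq
    have h2 : 0 ≤ q / (q - 1) * (Hh y - Hh (y / q)) := mul_nonneg (by positivity) (by linarith)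
    simpa using h2

lemma rc_le {X : ℝ} (hX : 0 < X) (p : ℕ) :
    rc X p ≤ 2 * (Real.log p / X * (max 0 (1 - Real.log p / X)) ^ 2) := by
  have hl : 0 ≤ Real.log p := Real.log_natCast_nonneg p
  unfold rc
  split_ifs with h
  · obtain ⟨h1, h2⟩ := mem_QX.1 h
    have h3 : Real.log p / X ≤ 1 := (div_le_one hX).2 h2
    rw [max_eq_right (by linarith)]
    unfold rs
    refine le_of_eq ?_
    ring
  · positivity

/-- the coefficient of the sum over the scales, every prime -/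
theorem rsum_le {q K : ℝ} (hq : 1 < q) (hK : 0 < K) (a J : ℕ) (p : ℕ) :
    ∑ i ∈ Finset.range J, rc (K / q ^ (a + i)) p ≤ 2 / 3 * (q / (q - 1)) := by
  have hq0 : 0 < q := by linarith
  have hq1 : 0 < q - 1 := by linarith
  have hl : 0 ≤ Real.log p := Real.log_natCast_nonneg p
  obtain ⟨z, hz⟩ : ∃ z : ℕ → ℝ, z = fun i => Hh (Real.log p * q ^ (a + i) / (K * q)) := ⟨_, rfl⟩
  have h1 : ∀ i ∈ Finset.range J, rc (K / q ^ (a + i)) p ≤ 2 * (q / (q - 1) * (z (i + 1) - z i)) := by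
    intro i _
    refine (rc_le (by positivity) p).trans ?_
    refine mul_le_mul_of_nonneg_left ?_ (by norm_num)
    refine (tel_up hq (by positivity)).trans (le_of_eq ?_)
    have e1 : Real.log p / (K / q ^ (a + i)) = Real.log p * q ^ (a + (i + 1)) / (K * q) := by
      rw [← add_assoc, pow_succ]
      field_simp
    have e2 : Real.log p / (K / q ^ (a + i)) / q = Real.log p * q ^ (a + i) / (K * q) := by
      field_simp
    rw [e2, e1, hz]
  refine (Finset.sum_le_sum h1).trans ?_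
  rw [← Finset.mul_sum, ← Finset.mul_sum, Finset.sum_range_sub]
  have h2 : z J - z 0 ≤ 1 / 3 := by
    have g1 : z J ≤ 1 / 3 := by rw [hz]; exact Hh_le _
    have g2 : 0 ≤ z 0 := by rw [hz]; exact Hh_nonneg (by positivity)
    linarith
  calc 2 * (q / (q - 1) * (z J - z 0)) ≤ 2 * (q / (q - 1) * (1 / 3)) := by gcongr
    _ = 2 / 3 * (q / (q - 1)) := by ring

/-- a geometric sum -/
lemma geo_le {q : ℝ} (hq : 1 < q) (n : ℕ) : ∑ i ∈ Finset.range n, q ^ i ≤ q ^ n / (q - 1) := by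
  have hq1 : 0 < q - 1 := by linarith
  rw [geom_sum_eq hq.ne']
  exact div_le_div_of_nonneg_right (by linarith) hq1.le

lemma geo_inv {q K : ℝ} (hq : 1 < q) (hK : 0 < K) (a J : ℕ) :
    ∑ i ∈ Finset.range J, (K / q ^ (a + i))⁻¹ ≤ (q - 1)⁻¹ * (K / q ^ (a + J))⁻¹ := by
  have hq0 : 0 < q := by linarith
  have hq1 : 0 < q - 1 := by linarith
  have e1 : ∀ i, (K / q ^ (a + i))⁻¹ = q ^ a / K * q ^ i := by
    intro i
    rw [inv_div, pow_add]
    ring
  rw [Finset.sum_congr rfl fun i _ => e1 i, ← Finset.mul_sum, e1]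
  calc q ^ a / K * ∑ i ∈ Finset.range J, q ^ i ≤ q ^ a / K * (q ^ J / (q - 1)) :=
        mul_le_mul_of_nonneg_left (geo_le hq J) (by positivity)
    _ = _ := by
        field_simp

/-- small primes -/
theorem rsum_small {q K : ℝ} (hq : 1 < q) (hK : 0 < K) (a J : ℕ) (p : ℕ) :
    ∑ i ∈ Finset.range J, rc (K / q ^ (a + i)) p ≤ 2 / (q - 1) * (Real.log p / (K / q ^ (a + J))) := by
  have hq0 : 0 < q := by linarith
  have hq1 : 0 < q - 1 := by linarith
  have hl : 0 ≤ Real.log p := Real.log_natCast_nonneg p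
  have h1 : ∀ i ∈ Finset.range J, rc (K / q ^ (a + i)) p ≤ 2 * Real.log p * (K / q ^ (a + i))⁻¹ := by
    intro i _
    have hX : 0 < K / q ^ (a + i) := by positivity
    unfold rc
    split_ifs with h
    · refine (rs_bd hX h).2.trans (le_of_eq ?_)
      rw [div_eq_mul_inv]
      ring
    · positivity
  refine (Finset.sum_le_sum h1).trans ?_
  rw [← Finset.mul_sum]
  calc 2 * Real.log p * ∑ i ∈ Finset.range J, (K / q ^ (a + i))⁻¹ ≤
      2 * Real.log p * ((q - 1)⁻¹ * (K / q ^ (a + J))⁻¹) :=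
        mul_le_mul_of_nonneg_left (geo_inv hq hK a J) (by positivity)
    _ = _ := by
        rw [div_eq_mul_inv, div_eq_mul_inv]
        ring

lemma window_ex {X : ℕ → ℝ} {x : ℝ} (h0 : x ≤ X 0) (J : ℕ) : x ≤ X J ∨ ∃ i ∈ Finset.range J, X (i + 1) < x ∧ x ≤ X i := by
  induction J with
  | zero => exact Or.inl h0
  | succ J ih =>
    rcases ih with h | ⟨i, hi, h1, h2⟩
    · rcases le_or_gt x (X (J + 1)) with h3 | h3
      · exact Or.inl h3
      · exact Or.inr ⟨J, Finset.mem_range.2 (Nat.lt_succ_self _), h3, h⟩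
    · exact Or.inr ⟨i, Finset.mem_range.2 ((Finset.mem_range.1 hi).trans (Nat.lt_succ_self _)), h1, h2⟩

/-- Mertens on small primes -/
lemma mert_small : ∃ E : ℝ, 0 < E ∧ ∀ X : ℝ, 0 ≤ X → ∑ p ∈ QX X, Real.log p / p ≤ X + E := by
  obtain ⟨E, hE, hm⟩ := mert_window
  refine ⟨E, hE, fun X hX => ?_⟩
  have h0 := hm 0 X le_rfl hX (QX X) (fun p => by
    rw [mem_QX]
    constructor
    · rintro ⟨h1, h2⟩
      exact ⟨h1, Real.log_pos (by exact_mod_cast h1.one_lt), h2⟩
    · rintro ⟨h1, _, h2⟩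
      exact ⟨h1, h2⟩)
  rw [sub_zero, abs_le] at h0
  linarith [h0.2]

/-- the variance, with the sharp constant -/
theorem var_upq (q : ℝ) (hq : 1 < q) : ∃ C : ℝ, 0 < C ∧ ∀ (K : ℝ) (a J : ℕ), 1 / 2 ≤ K / q ^ (a + J) →
    ∀ Q : Finset ℕ, (∀ p ∈ Q, p.Prime ∧ Real.log p ≤ K / q ^ a) →
    ∑ p ∈ Q, (∑ i ∈ Finset.range J, rc (K / q ^ (a + i)) p) ^ 2 / p ≤ 4 / 9 * (q ^ 2 / (q - 1)) * J + C := by
  classical
  obtain ⟨E, hE, hm⟩ := mert_window
  obtain ⟨E', hE', hs⟩ := mert_small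
  have hq0 : 0 < q := by linarith
  have hq1 : 0 < q - 1 := by linarith
  refine ⟨4 / 9 * (q / (q - 1)) ^ 2 * (E * (2 * (q / (q - 1)))) + (2 / (q - 1)) ^ 2 * (1 + 2 * E'), by positivity,
    fun K a J hX Q hQ => ?_⟩
  have hK : 0 < K := by
    by_contra h
    rw [not_lt] at h
    have : K / q ^ (a + J) ≤ 0 := div_nonpos_of_nonpos_of_nonneg h (by positivity)
    linarith
  obtain ⟨X, hXd⟩ : ∃ X : ℕ → ℝ, X = fun i => K / q ^ (a + i) := ⟨_, rfl⟩
  have hXp : ∀ i, 0 < X i := fun i => by rw [hXd]; positivity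
  have hXs : ∀ i, X i = q * X (i + 1) := fun i => by
    rw [hXd]
    show K / q ^ (a + i) = q * (K / q ^ (a + i + 1))
    rw [pow_succ]
    field_simp
  obtain ⟨F, hF⟩ : ∃ F : ℕ → ℝ, F = fun p => (∑ i ∈ Finset.range J, rc (K / q ^ (a + i)) p) ^ 2 / (p : ℝ) := ⟨_, rfl⟩
  have hF0 : ∀ p, 0 ≤ F p := fun p => by rw [hF]; positivity
  have hR0 : ∀ p, 0 ≤ ∑ i ∈ Finset.range J, rc (K / q ^ (a + i)) p := fun p =>
    Finset.sum_nonneg fun i _ => rc_nonneg (by positivity) p
  -- decomposition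
  have hdec : ∑ p ∈ Q, F p ≤ ∑ p ∈ QX (X J), F p +
      ∑ i ∈ Finset.range J, ∑ p ∈ Q.filter (fun p : ℕ => X (i + 1) < Real.log p ∧ Real.log p ≤ X i), F p := by
    have h1 : ∀ p ∈ Q, F p ≤ (if p ∈ QX (X J) then F p else 0) +
        ∑ i ∈ Finset.range J, (if X (i + 1) < Real.log p ∧ Real.log p ≤ X i then F p else 0) := by
      intro p hp
      obtain ⟨hp1, hp2⟩ := hQ p hp
      have hn : ∀ i ∈ Finset.range J, 0 ≤ (if X (i + 1) < Real.log p ∧ Real.log p ≤ X i then F p else 0) := by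
        intro i _
        split_ifs
        · exact hF0 p
        · exact le_rfl
      rcases window_ex (X := X) (x := Real.log p) (by rw [hXd]; simpa using hp2) J with h | ⟨i, hi, h2⟩
      · rw [if_pos (mem_QX.2 ⟨hp1, h⟩)]
        exact le_add_of_nonneg_right (Finset.sum_nonneg hn)
      · have h3 : F p = (if X (i + 1) < Real.log p ∧ Real.log p ≤ X i then F p else 0) := by rw [if_pos h2]
        have h4 : (if X (i + 1) < Real.log p ∧ Real.log p ≤ X i then F p else 0) ≤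
            ∑ i ∈ Finset.range J, (if X (i + 1) < Real.log p ∧ Real.log p ≤ X i then F p else 0) :=
          Finset.single_le_sum (f := fun i => if X (i + 1) < Real.log p ∧ Real.log p ≤ X i then F p else 0) hn hi
        have h5 : 0 ≤ (if p ∈ QX (X J) then F p else 0) := by
          split_ifs
          · exact hF0 p
          · exact le_rfl
        linarith
    refine (Finset.sum_le_sum h1).trans ?_
    rw [Finset.sum_add_distrib, Finset.sum_comm]
    refine add_le_add ?_ (le_of_eq (Finset.sum_congr rfl fun i _ => ?_))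
    · rw [← Finset.sum_filter]
      exact Finset.sum_le_sum_of_subset_of_nonneg (fun p hp => (Finset.mem_filter.1 hp).2) fun p _ _ => hF0 p
    · rw [Finset.sum_filter]
  -- small primes
  have hsm : ∑ p ∈ QX (X J), F p ≤ (2 / (q - 1)) ^ 2 * (1 + 2 * E') := by
    have hXJ : 1 / 2 ≤ X J := by rw [hXd]; exact hX
    have h1 : ∀ p ∈ QX (X J), F p ≤ (2 / (q - 1)) ^ 2 / X J * (Real.log p / p) := by
      intro p hp
      obtain ⟨hp1, hp2⟩ := mem_QX.1 hp
      have hl : 0 ≤ Real.log p := Real.log_natCast_nonneg p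
      have hp0 : (0:ℝ) < p := by exact_mod_cast hp1.pos
      have h2 := rsum_small hq hK a J p
      have h3 : (∑ i ∈ Finset.range J, rc (K / q ^ (a + i)) p) ^ 2 ≤ (2 / (q - 1) * (Real.log p / X J)) ^ 2 := by
        refine pow_le_pow_left₀ (hR0 p) ?_ 2
        rw [hXd]
        exact h2
      rw [hF]
      show _ / (p:ℝ) ≤ _
      have h4 : (Real.log p / X J) ^ 2 ≤ Real.log p / X J := by
        have g1 : Real.log p / X J ≤ 1 := (div_le_one (hXp J)).2 hp2
        have g2 : 0 ≤ Real.log p / X J := div_nonneg hl (hXp J).le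
        nlinarith
      calc _ ≤ (2 / (q - 1) * (Real.log p / X J)) ^ 2 / (p:ℝ) := div_le_div_of_nonneg_right h3 hp0.le
        _ = (2 / (q - 1)) ^ 2 * (Real.log p / X J) ^ 2 / p := by ring
        _ ≤ (2 / (q - 1)) ^ 2 * (Real.log p / X J) / p := by gcongr
        _ = _ := by ring
    refine (Finset.sum_le_sum h1).trans ?_
    rw [← Finset.mul_sum]
    have h5 := hs (X J) (hXp J).le
    calc (2 / (q - 1)) ^ 2 / X J * ∑ p ∈ QX (X J), Real.log p / p ≤ (2 / (q - 1)) ^ 2 / X J * (X J + E') := by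
          have := hXp J
          gcongr
      _ = (2 / (q - 1)) ^ 2 * (1 + E' / X J) := by
          have := (hXp J).ne'
          field_simp
      _ ≤ (2 / (q - 1)) ^ 2 * (1 + 2 * E') := by
          refine mul_le_mul_of_nonneg_left ?_ (by positivity)
          have : E' / X J ≤ 2 * E' := by
            rw [div_le_iff₀ (hXp J)]
            nlinarith
          linarith
  -- windows
  have hwin : ∀ i ∈ Finset.range J, ∑ p ∈ Q.filter (fun p : ℕ => X (i + 1) < Real.log p ∧ Real.log p ≤ X i), F p ≤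
      4 / 9 * (q / (q - 1)) ^ 2 * ((q - 1) + E * (X (i + 1))⁻¹) := by
    intro i _
    have h1 : ∀ p ∈ Q.filter (fun p : ℕ => X (i + 1) < Real.log p ∧ Real.log p ≤ X i),
        F p ≤ 4 / 9 * (q / (q - 1)) ^ 2 * (X (i + 1))⁻¹ * (Real.log p / p) := by
      intro p hp
      obtain ⟨hp1, hp2, hp3⟩ := Finset.mem_filter.1 hp
      have hp0 : (0:ℝ) < p := by exact_mod_cast (hQ p hp1).1.pos
      have h2 := rsum_le hq hK a J p
      have h3 : (∑ i ∈ Finset.range J, rc (K / q ^ (a + i)) p) ^ 2 ≤ (2 / 3 * (q / (q - 1))) ^ 2 :=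
        pow_le_pow_left₀ (hR0 p) h2 2
      have h4 : 1 ≤ (X (i + 1))⁻¹ * Real.log p := by
        rw [inv_mul_eq_div, le_div_iff₀ (hXp _), one_mul]
        exact hp2.le
      rw [hF]
      show _ / (p:ℝ) ≤ _
      calc _ ≤ (2 / 3 * (q / (q - 1))) ^ 2 / (p:ℝ) := div_le_div_of_nonneg_right h3 hp0.le
        _ = 4 / 9 * (q / (q - 1)) ^ 2 / p * 1 := by ring
        _ ≤ 4 / 9 * (q / (q - 1)) ^ 2 / p * ((X (i + 1))⁻¹ * Real.log p) :=
            mul_le_mul_of_nonneg_left h4 (by positivity)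
        _ = _ := by ring
    refine (Finset.sum_le_sum h1).trans ?_
    rw [← Finset.mul_sum]
    obtain ⟨P, hP⟩ : ∃ P : Finset ℕ, P = (QX (X i)).filter (fun p : ℕ => X (i + 1) < Real.log p) := ⟨_, rfl⟩
    have h5 := hm (X (i + 1)) (X i) (hXp _).le (by rw [hXs i]; nlinarith [hXp (i + 1)]) P (fun p => by
      rw [hP, Finset.mem_filter, mem_QX]
      tauto)
    rw [abs_le] at h5
    have h6 : ∑ p ∈ Q.filter (fun p : ℕ => X (i + 1) < Real.log p ∧ Real.log p ≤ X i), Real.log p / p ≤ ∑ p ∈ P, Real.log p / p := by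
      refine Finset.sum_le_sum_of_subset_of_nonneg (fun p hp => ?_) fun p _ _ => by
        have := Real.log_natCast_nonneg p
        positivity
      obtain ⟨hp1, hp2, hp3⟩ := Finset.mem_filter.1 hp
      rw [hP, Finset.mem_filter, mem_QX]
      exact ⟨⟨(hQ p hp1).1, hp3⟩, hp2⟩
    have h7 : ∑ p ∈ Q.filter (fun p : ℕ => X (i + 1) < Real.log p ∧ Real.log p ≤ X i), Real.log p / p ≤
        (q - 1) * X (i + 1) + E := by
      have := hXs i
      have e : X i - X (i + 1) = (q - 1) * X (i + 1) := by rw [this]; ring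
      linarith [h5.2]
    have h8 : 0 ≤ 4 / 9 * (q / (q - 1)) ^ 2 * (X (i + 1))⁻¹ := by
      have := hXp (i + 1)
      positivity
    refine (mul_le_mul_of_nonneg_left h7 h8).trans (le_of_eq ?_)
    have := (hXp (i + 1)).ne'
    field_simp
  have hF2 : ∑ p ∈ Q, (∑ i ∈ Finset.range J, rc (K / q ^ (a + i)) p) ^ 2 / (p:ℝ) = ∑ p ∈ Q, F p := by rw [hF]
  rw [hF2]
  refine (hdec.trans (add_le_add hsm (Finset.sum_le_sum hwin))).trans ?_
  have h9 : ∑ i ∈ Finset.range J, (X (i + 1))⁻¹ ≤ 2 * (q / (q - 1)) := by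
    have h10 := geo_inv hq hK (a + 1) J
    have h11 : ∑ i ∈ Finset.range J, (X (i + 1))⁻¹ = ∑ i ∈ Finset.range J, (K / q ^ (a + 1 + i))⁻¹ := by
      refine Finset.sum_congr rfl fun i _ => ?_
      rw [hXd]
      show (K / q ^ (a + (i + 1)))⁻¹ = _
      congr 3
      omega
    rw [h11]
    refine h10.trans ?_
    have h12 : (K / q ^ (a + 1 + J))⁻¹ = q * (K / q ^ (a + J))⁻¹ := by
      rw [show a + 1 + J = a + J + 1 by omega, pow_succ, inv_div, inv_div]
      ring
    have h13 : (K / q ^ (a + J))⁻¹ ≤ 2 := by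
      rw [inv_le_comm₀ (by linarith) (by norm_num)]
      linarith
    rw [h12]
    calc (q - 1)⁻¹ * (q * (K / q ^ (a + J))⁻¹) ≤ (q - 1)⁻¹ * (q * 2) := by gcongr
      _ = _ := by
          rw [div_eq_mul_inv]
          ring
  rw [← Finset.mul_sum, Finset.sum_add_distrib, Finset.sum_const, Finset.card_range, nsmul_eq_mul, ← Finset.mul_sum]
  have h14 : 4 / 9 * (q / (q - 1)) ^ 2 * (J * (q - 1)) = 4 / 9 * (q ^ 2 / (q - 1)) * J := by
    field_simp
  have h15 : 4 / 9 * (q / (q - 1)) ^ 2 * (E * ∑ i ∈ Finset.range J, (X (i + 1))⁻¹) ≤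
      4 / 9 * (q / (q - 1)) ^ 2 * (E * (2 * (q / (q - 1)))) := by gcongr
  have h16 : 4 / 9 * (q / (q - 1)) ^ 2 * ((J:ℝ) * (q - 1) + E * ∑ i ∈ Finset.range J, (X (i + 1))⁻¹) =
      4 / 9 * (q ^ 2 / (q - 1)) * J + 4 / 9 * (q / (q - 1)) ^ 2 * (E * ∑ i ∈ Finset.range J, (X (i + 1))⁻¹) := by
    rw [mul_add, h14]
  linarith

end Pool.Agent.Helper82.NS
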