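import Pool.Agent.Helper82.NS.Gen
import Pool.Agent.Helper99.NS.Sc

/-!
# NS: blocks D1 (`var_up`, `rk_le`) and D2 (`sl_dp`)
-/

set_option autoImplicit false
open MeasureTheory Set Filter Topology
open Pool.Agent.Helper57.TX
open Pool.Agent.Helper57.NS
open Pool.Agent.Helper54.LG (SS)
open Pool.Agent.Helper93.UG (sp)
open Pool.Agent.Helper69.UG (XX)

namespace Pool.Agent.Helper82.NS

open Pool.Agent.Helper64.TX (mem_QX)
open Pool.Agent.Helper82.NR (rc rc_nonneg)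
open Pool.Agent.Helper99.NS (card_bd sc_range)

/-- the coefficients -/
lemma rk_eq {k T L : ℝ} {a : ℕ} (hsum : ∀ f : ℕ → ℝ, ∑ j ∈ Sc k L, f j = ∑ i ∈ Finset.range (Sc k L).card, f (a + i))
    {p : ℕ} (hp : p.Prime) : rk k T L p =
      wk k L * ∑ i ∈ Finset.range (Sc k L).card, rc (Real.log T / (1 + k) ^ (a + i)) p := by
  classical
  unfold rk
  rw [hsum]
  congr 1
  refine Finset.sum_congr rfl fun i _ => ?_
  unfold rc XX
  by_cases h : Real.log p ≤ Real.log T / (1 + k) ^ (a + i)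
  · rw [if_pos h, if_pos (mem_QX.2 ⟨hp, h⟩)]
  · rw [if_neg h, if_neg (fun h' => h (mem_QX.1 h').2)]

/-- the numbers of a scale range -/
lemma nums {k : ℝ} (hk : 0 < k) (hk8 : k ≤ 1 / 8) {K L : ℝ} (hL : 1 ≤ L) (hLK : L ≤ K) {a J : ℕ} (hJ : 1 ≤ J)
    (ha : L ^ k ≤ (1 + k) ^ a) (haJ : (1 + k) ^ (a + J - 1) ≤ L ^ (1 - k)) :
    L ^ k ≤ (1 + k) * (K / (1 + k) ^ (a + J)) ∧ 1 / 2 ≤ K / (1 + k) ^ (a + J) ∧ K / (1 + k) ^ a ≤ K / L ^ k := by
  have hL0 : 0 < L := by linarith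
  have hq : 0 < 1 + k := by linarith
  have e1 : (1 + k) ^ (a + J) = (1 + k) ^ (a + J - 1) * (1 + k) := by
    rw [← pow_succ]
    congr 1
    omega
  have h1 : L ^ k ≤ (1 + k) * (K / (1 + k) ^ (a + J)) := by
    have e2 : (1 + k) * (K / (1 + k) ^ (a + J)) = K / (1 + k) ^ (a + J - 1) := by
      rw [e1]
      field_simp
    rw [e2, le_div_iff₀ (by positivity)]
    calc L ^ k * (1 + k) ^ (a + J - 1) ≤ L ^ k * L ^ (1 - k) := by gcongr
      _ = L := by
          rw [← Real.rpow_add hL0]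
          norm_num
      _ ≤ K := hLK
  refine ⟨h1, ?_, ?_⟩
  · have h2 : 1 ≤ L ^ k := Real.one_le_rpow hL hk.le
    have h3 : 0 ≤ K / (1 + k) ^ (a + J) := by
      have : 0 < K := by linarith
      positivity
    nlinarith
  · exact div_le_div_of_nonneg_left (by linarith) (by positivity) ha

theorem rk_le {k : ℝ} (hk : 0 < k) (hk8 : k ≤ 1 / 8) : ∃ C T₀ : ℝ, 1 ≤ C ∧ ∀ T L : ℝ, T₀ ≤ T → C ≤ L → L ≤ Real.log T →
    ∀ p : ℕ, p.Prime → 0 ≤ rk k T L p ∧ rk k T L p ^ 2 / p ≤ C * L ^ (-(2 * k)) := by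
  obtain ⟨C0, hC0, hsc⟩ := sc_range hk hk8
  refine ⟨max C0 (4 * (3 / k * (1 + k)) ^ 2), 1, le_max_of_le_left hC0, fun T L hT hL hLT p hp => ?_⟩
  have hL0 : C0 ≤ L := (le_max_left _ _).trans hL
  have hL1 : 1 ≤ L := hC0.trans hL0
  have hLp : 0 < L := by linarith
  obtain ⟨a, hsum, hJ1, ha1, ha2, ha3, ha4⟩ := hsc L hL0
  obtain ⟨J, hJ⟩ : ∃ J : ℕ, J = (Sc k L).card := ⟨_, rfl⟩
  have hrk := rk_eq (T := T) hsum hp
  rw [← hJ] at hJ1 ha3 ha4 hrk
  have hJ0 : (1:ℝ) ≤ J := by exact_mod_cast hJ1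
  have hJp : (0:ℝ) < J := by linarith
  have hK : 0 < Real.log T := by linarith
  have hq : 1 < 1 + k := by linarith
  have hwk : wk k L = 3 / (2 * (J:ℝ)) := by
    unfold wk
    rw [hJ]
  obtain ⟨n1, n2, n3⟩ := nums hk hk8 hL1 hLT hJ1 ha1 ha3
  have hXp : 0 < Real.log T / (1 + k) ^ (a + J) := by positivity
  have hR0 : 0 ≤ ∑ i ∈ Finset.range J, rc (Real.log T / (1 + k) ^ (a + i)) p :=
    Finset.sum_nonneg fun i _ => rc_nonneg (by positivity) p
  have hrk0 : 0 ≤ rk k T L p := by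
    rw [hrk, hwk]
    positivity
  refine ⟨hrk0, ?_⟩
  have hp0 : (0:ℝ) < p := by exact_mod_cast hp.pos
  have hl : 0 ≤ Real.log p := Real.log_natCast_nonneg p
  have h1 := rsum_small hq hK a J p
  have h2 : rk k T L p ≤ 3 / k * (1 + k) * (Real.log p / L ^ k) := by
    rw [hrk, hwk]
    have hLk : 0 < L ^ k := by positivity
    have g1 : Real.log p / (Real.log T / (1 + k) ^ (a + J)) ≤ (1 + k) * (Real.log p / L ^ k) := by
      rw [div_le_iff₀ hXp]
      calc Real.log p = Real.log p / L ^ k * L ^ k := by field_simp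
        _ ≤ Real.log p / L ^ k * ((1 + k) * (Real.log T / (1 + k) ^ (a + J))) := by gcongr
        _ = _ := by ring
    have g2 : 3 / (2 * (J:ℝ)) ≤ 3 / 2 := by
      rw [div_le_div_iff₀ (by positivity) (by norm_num)]
      linarith
    calc 3 / (2 * (J:ℝ)) * ∑ i ∈ Finset.range J, rc (Real.log T / (1 + k) ^ (a + i)) p ≤
        3 / 2 * (2 / (1 + k - 1) * (Real.log p / (Real.log T / (1 + k) ^ (a + J)))) :=
          mul_le_mul g2 h1 hR0 (by norm_num)
      _ ≤ 3 / 2 * (2 / (1 + k - 1) * ((1 + k) * (Real.log p / L ^ k))) := by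
          have : 0 ≤ 2 / (1 + k - 1) := by
            rw [add_sub_cancel_left]
            positivity
          gcongr
      _ = _ := by
          rw [add_sub_cancel_left]
          ring
  have h4 : Real.log p ≤ 2 * √p := by
    have := Real.log_le_rpow_div hp0.le (ε := 1 / 2) (by norm_num)
    rw [← Real.sqrt_eq_rpow] at this
    linarith
  have h5 : Real.log p ^ 2 / p ≤ 4 := by
    rw [div_le_iff₀ hp0]
    calc Real.log p ^ 2 ≤ (2 * √p) ^ 2 := pow_le_pow_left₀ hl h4 2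
      _ = 4 * √p ^ 2 := by ring
      _ = 4 * p := by rw [Real.sq_sqrt hp0.le]
  calc rk k T L p ^ 2 / p ≤ (3 / k * (1 + k) * (Real.log p / L ^ k)) ^ 2 / p :=
        div_le_div_of_nonneg_right (pow_le_pow_left₀ hrk0 h2 2) hp0.le
    _ = (3 / k * (1 + k)) ^ 2 * (Real.log p ^ 2 / p) * (L ^ k * L ^ k)⁻¹ := by
        have : 0 < L ^ k := by positivity
        field_simp
    _ = (3 / k * (1 + k)) ^ 2 * (Real.log p ^ 2 / p) * L ^ (-(2 * k)) := by
        rw [← Real.rpow_add hLp, Real.rpow_neg hLp.le]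
        congr 3
        ring
    _ ≤ (3 / k * (1 + k)) ^ 2 * 4 * L ^ (-(2 * k)) := by gcongr
    _ = (4 * (3 / k * (1 + k)) ^ 2) * L ^ (-(2 * k)) := by ring
    _ ≤ _ := by
        have := le_max_right C0 (4 * (3 / k * (1 + k)) ^ 2)
        gcongr

/-- `log (1 + k) ≤ k (1 - 2k/5)` -/
lemma log_k {k : ℝ} (hk : 0 < k) (hk8 : k ≤ 1 / 8) : Real.log (1 + k) ≤ k * (1 - 2 / 5 * k) := by
  rw [Real.log_le_iff_le_exp (by linarith)]
  have h1 := Real.quadratic_le_exp_of_nonneg (x := k * (1 - 2 / 5 * k)) (mul_nonneg hk.le (by linarith))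
  refine le_trans ?_ h1
  have h2 : 4 / 5 ≤ (1 - 2 / 5 * k) ^ 2 := by nlinarith
  have h3 : k ^ 2 * (4 / 5) ≤ k ^ 2 * (1 - 2 / 5 * k) ^ 2 := mul_le_mul_of_nonneg_left h2 (sq_nonneg k)
  nlinarith

theorem var_up {k : ℝ} (hk : 0 < k) (hk8 : k ≤ 1 / 8) : ∃ C T₀ : ℝ, 1 ≤ C ∧ ∀ T L : ℝ, T₀ ≤ T → C ≤ L → L ≤ Real.log T →
    ∑ p ∈ QX (Xk k T L), rk k T L p ^ 2 / p ≤ (1 + 5 * k) / Real.log L := by
  obtain ⟨C0, hC0, hsc⟩ := sc_range hk hk8
  obtain ⟨C1, hC1, hcard⟩ := card_bd hk hk8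
  obtain ⟨Cv, hCv, hv⟩ := var_upq (1 + k) (by linarith)
  obtain ⟨D, hD⟩ : ∃ D : ℝ, D = max 4 ((9 / 4 * Cv + (1 + 5 * k) * k) / (k * (1 / 10))) := ⟨_, rfl⟩
  have hD4 : 4 ≤ D := hD ▸ le_max_left _ _
  have hDb : (9 / 4 * Cv + (1 + 5 * k) * k) / (k * (1 / 10)) ≤ D := hD ▸ le_max_right _ _
  refine ⟨max (max C0 C1) (Real.exp D), 1, le_max_of_le_left (le_max_of_le_left hC0), fun T L hT hL hLT => ?_⟩
  have hL0 : C0 ≤ L := (le_max_left _ _).trans ((le_max_left _ _).trans hL)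
  have hLC1 : C1 ≤ L := (le_max_right _ _).trans ((le_max_left _ _).trans hL)
  have hL1 : 1 ≤ L := hC0.trans hL0
  have hLp : 0 < L := by linarith
  have hΛ : D ≤ Real.log L := by
    rw [Real.le_log_iff_exp_le hLp]
    exact (le_max_right _ _).trans hL
  obtain ⟨a, hsum, hJ1, ha1, ha2, ha3, ha4⟩ := hsc L hL0
  have hcd := hcard L hLC1
  obtain ⟨J, hJ⟩ : ∃ J : ℕ, J = (Sc k L).card := ⟨_, rfl⟩
  have hrk : ∀ p : ℕ, p.Prime → rk k T L p = wk k L * ∑ i ∈ Finset.range J, rc (Real.log T / (1 + k) ^ (a + i)) p := by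
    intro p hp
    rw [rk_eq (T := T) hsum hp, hJ]
  rw [← hJ] at hJ1 ha3 ha4 hcd
  have hJ0 : (1:ℝ) ≤ J := by exact_mod_cast hJ1
  have hJp : (0:ℝ) < J := by linarith
  have hK : 0 < Real.log T := by linarith
  have hwk : wk k L = 3 / (2 * (J:ℝ)) := by
    unfold wk
    rw [hJ]
  obtain ⟨n1, n2, n3⟩ := nums hk hk8 hL1 hLT hJ1 ha1 ha3
  have hv1 := hv (Real.log T) a J n2 (QX (Real.log T / (1 + k) ^ a)) (fun p hp => mem_QX.1 hp)
  -- restriction of the sum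
  have hsub : QX (Real.log T / (1 + k) ^ a) ⊆ QX (Xk k T L) := fun p hp => by
    rw [mem_QX] at hp ⊢
    exact ⟨hp.1, hp.2.trans n3⟩
  have hout : ∀ p ∈ QX (Xk k T L), p ∉ QX (Real.log T / (1 + k) ^ a) → rk k T L p ^ 2 / (p:ℝ) = 0 := by
    intro p hp hnp
    obtain ⟨hp1, _⟩ := mem_QX.1 hp
    have h0 : ∑ i ∈ Finset.range J, rc (Real.log T / (1 + k) ^ (a + i)) p = 0 := by
      refine Finset.sum_eq_zero fun i _ => ?_
      unfold rc
      rw [if_neg]
      intro h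
      apply hnp
      rw [mem_QX] at h ⊢
      refine ⟨h.1, h.2.trans ?_⟩
      exact div_le_div_of_nonneg_left hK.le (by positivity) (pow_le_pow_right₀ (by linarith) (by omega))
    rw [hrk p hp1, h0]
    simp
  rw [← Finset.sum_subset hsub hout]
  have h1 : ∑ p ∈ QX (Real.log T / (1 + k) ^ a), rk k T L p ^ 2 / (p:ℝ) =
      9 / (4 * (J:ℝ) ^ 2) * ∑ p ∈ QX (Real.log T / (1 + k) ^ a),
        (∑ i ∈ Finset.range J, rc (Real.log T / (1 + k) ^ (a + i)) p) ^ 2 / (p:ℝ) := by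
    rw [Finset.mul_sum]
    refine Finset.sum_congr rfl fun p hp => ?_
    rw [hrk p (mem_QX.1 hp).1, hwk]
    field_simp
    ring
  rw [h1]
  have hΛp : 0 < Real.log L := by linarith
  rw [add_sub_cancel_left] at hv1
  -- the count
  have hlk := log_k hk hk8
  have hlk0 : 0 < Real.log (1 + k) := Real.log_pos (by linarith)
  rw [abs_le] at hcd
  have hkJ : ((1 - 2 * k) * Real.log L - k) ≤ k * J * (1 - 2 / 5 * k) := by
    have g1 : (1 - 2 * k) * Real.log L - Real.log (1 + k) ≤ J * Real.log (1 + k) := by linarith [hcd.1]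
    have g2 : (J:ℝ) * Real.log (1 + k) ≤ J * (k * (1 - 2 / 5 * k)) := mul_le_mul_of_nonneg_left hlk hJp.le
    have g3 : k * (1 - 2 / 5 * k) ≤ k := by nlinarith
    linarith
  have hJL : Real.log L ≤ J := by
    have g1 : (1 - 2 * k) * Real.log L ≥ 3 / 4 * Real.log L := by nlinarith
    have g2 : k * J * (1 - 2 / 5 * k) ≤ 1 / 8 * J := by
      have : k * (1 - 2 / 5 * k) ≤ 1 / 8 := by nlinarith
      nlinarith
    linarith
  obtain ⟨Y, hY⟩ : ∃ Y : ℝ, Y = (1 - 2 * k) * Real.log L - k := ⟨_, rfl⟩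
  rw [← hY] at hkJ
  have hY0 : 0 < Y := by
    rw [hY]
    nlinarith
  have h2 : 9 / (4 * (J:ℝ) ^ 2) * (4 / 9 * ((1 + k) ^ 2 / k) * J + Cv) ≤
      (1 + k) ^ 2 * (1 - 2 / 5 * k) / Y + 9 / 4 * Cv / Real.log L ^ 2 := by
    have e1 : 9 / (4 * (J:ℝ) ^ 2) * (4 / 9 * ((1 + k) ^ 2 / k) * J + Cv) = (1 + k) ^ 2 / (k * J) + 9 / 4 * Cv / (J:ℝ) ^ 2 := by
      field_simp
    rw [e1]
    refine add_le_add ?_ ?_
    · rw [div_le_div_iff₀ (by positivity) hY0]
      calc (1 + k) ^ 2 * Y ≤ (1 + k) ^ 2 * (k * J * (1 - 2 / 5 * k)) := by gcongr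
        _ = _ := by ring
    · exact div_le_div_of_nonneg_left (by positivity) (by positivity) (pow_le_pow_left₀ hΛp.le hJL 2)
  have h3 : (1 + k) ^ 2 * (1 - 2 / 5 * k) / Y + 9 / 4 * Cv / Real.log L ^ 2 ≤ (1 + 5 * k) / Real.log L := by
    have hB : (1 + k) ^ 2 * (1 - 2 / 5 * k) + k * (1 / 10) ≤ (1 + 5 * k) * (1 - 2 * k) := by nlinarith [mul_pos hk hk]
    have g0 : 9 / 4 * Cv + (1 + 5 * k) * k ≤ k * (1 / 10) * Real.log L := by
      have := hDb.trans hΛ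
      rw [div_le_iff₀ (by positivity)] at this
      linarith
    have g1 : (1 + k) ^ 2 * (1 - 2 / 5 * k) * Real.log L ^ 2 + 9 / 4 * Cv * Y ≤ (1 + 5 * k) * Real.log L * Y := by
      have g2 : 9 / 4 * Cv * Y ≤ 9 / 4 * Cv * Real.log L := by
        refine mul_le_mul_of_nonneg_left ?_ (by positivity)
        rw [hY]
        nlinarith
      have g3 : (1 + 5 * k) * Real.log L * Y = (1 + 5 * k) * (1 - 2 * k) * Real.log L ^ 2 - (1 + 5 * k) * k * Real.log L := by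
        rw [hY]
        ring
      have g4 : ((1 + k) ^ 2 * (1 - 2 / 5 * k) + k * (1 / 10)) * Real.log L ^ 2 ≤ (1 + 5 * k) * (1 - 2 * k) * Real.log L ^ 2 :=
        mul_le_mul_of_nonneg_right hB (sq_nonneg _)
      have g5 : (9 / 4 * Cv + (1 + 5 * k) * k) * Real.log L ≤ k * (1 / 10) * Real.log L * Real.log L :=
        mul_le_mul_of_nonneg_right g0 hΛp.le
      nlinarith
    rw [div_add_div _ _ hY0.ne' (by positivity), div_le_div_iff₀ (by positivity) hΛp]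
    calc ((1 + k) ^ 2 * (1 - 2 / 5 * k) * Real.log L ^ 2 + Y * (9 / 4 * Cv)) * Real.log L ≤
        ((1 + 5 * k) * Real.log L * Y) * Real.log L := by
          refine mul_le_mul_of_nonneg_right ?_ hΛp.le
          linarith
      _ = _ := by ring
  have h4 : 0 ≤ 9 / (4 * (J:ℝ) ^ 2) := by positivity
  exact (mul_le_mul_of_nonneg_left hv1 h4).trans (h2.trans h3)

theorem sl_dp {k : ℝ} (hk : 0 < k) (hk8 : k ≤ 1 / 8) : ∃ c C T₀ : ℝ, 0 < c ∧ 1 ≤ C ∧ ∀ T L : ℝ, T₀ ≤ T → C ≤ L →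
    L ≤ Real.log T → ∃ E : Set ℝ, volume E ≤ ENNReal.ofReal (C * L ^ (-4 : ℝ) * T) ∧
    ∀ t ∈ Icc (T / 2) (3 * T), t ∉ E → ∀ u : ℝ, |u - t| ≤ sp T →
      |Sk k T L u - (DP (QX (Xk k T L)) (rk k T L) t).re| ≤ C * L ^ (-c) := by
  obtain ⟨C0, hC0, hsc⟩ := sc_range hk hk8
  obtain ⟨m, hm⟩ : ∃ m : ℕ, m = ⌈4 / k⌉₊ := ⟨_, rfl⟩
  have hm4 : 4 / k ≤ m := by
    rw [hm]
    exact Nat.le_ceil _
  have hm1 : 1 ≤ m := by
    have : 0 < 4 / k := by positivity
    have h1 : (0:ℝ) < m := by linarith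
    exact_mod_cast h1
  obtain ⟨C1, T1, hC1, hgen⟩ := gen (1 + k) (by linarith) m hm1
  refine ⟨k / 2, max (max C0 (3 * C1)) ((8 * m) ^ (1 / k)), max T1 1, by positivity,
    le_max_of_le_left (le_max_of_le_left hC0), fun T L hT hL hLT => ?_⟩
  have hL0 : C0 ≤ L := (le_max_left _ _).trans ((le_max_left _ _).trans hL)
  have hC3 : 3 * C1 ≤ max (max C0 (3 * C1)) ((8 * m) ^ (1 / k)) := (le_max_right _ _).trans (le_max_left _ _)
  have hLm : (8 * m : ℝ) ^ (1 / k) ≤ L := (le_max_right _ _).trans hL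
  have hL1 : 1 ≤ L := hC0.trans hL0
  have hLp : 0 < L := by linarith
  have hTa : T1 ≤ T := (le_max_left _ _).trans hT
  have hTp : 0 < T := by linarith [(le_max_right T1 1).trans hT]
  obtain ⟨a, hsum, hJ1, ha1, ha2, ha3, ha4⟩ := hsc L hL0
  obtain ⟨J, hJ⟩ : ∃ J : ℕ, J = (Sc k L).card := ⟨_, rfl⟩
  have hrk : ∀ p : ℕ, p.Prime → rk k T L p = wk k L * ∑ i ∈ Finset.range J, rc (Real.log T / (1 + k) ^ (a + i)) p := by
    intro p hp
    rw [rk_eq (T := T) hsum hp, hJ]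
  have hSk : ∀ u, Sk k T L u = wk k L * ∑ i ∈ Finset.range J, SS (Real.log T / (1 + k) ^ (a + i)) u := by
    intro u
    unfold Sk
    rw [hsum, hJ]
    rfl
  rw [← hJ] at hJ1 ha3 ha4
  have hJ0 : (1:ℝ) ≤ J := by exact_mod_cast hJ1
  have hJp : (0:ℝ) < J := by linarith
  have hK : 0 < Real.log T := by linarith
  have hwk : wk k L = 3 / (2 * (J:ℝ)) := by
    unfold wk
    rw [hJ]
  obtain ⟨n1, n2, n3⟩ := nums hk hk8 hL1 hLT hJ1 ha1 ha3
  have hl2 : (L ^ (k / 2)) ^ 2 = L ^ k := by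
    rw [pow_two, ← Real.rpow_add hLp]
    congr 1
    ring
  have hl1 : 1 ≤ L ^ (k / 2) := Real.one_le_rpow hL1 (by positivity)
  have h8m : (8 * m : ℝ) ≤ (1 + k) ^ a := by
    refine le_trans ?_ ha1
    calc (8 * m : ℝ) = ((8 * m : ℝ) ^ (1 / k)) ^ k := by
          rw [← Real.rpow_mul (by positivity)]
          field_simp
          rw [Real.rpow_one]
      _ ≤ L ^ k := Real.rpow_le_rpow (by positivity) hLm hk.le
  obtain ⟨E, hE, hEt⟩ := hgen T (L ^ (k / 2)) a J hTa hl1 (by rw [hl2]; exact ha1) (by rw [hl2]; exact n1) h8m n2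
  refine ⟨E, hE.trans (ENNReal.ofReal_le_ofReal ?_), fun t ht hnt u hu => ?_⟩
  · refine mul_le_mul_of_nonneg_right ?_ hTp.le
    have g1 : L ^ (4:ℝ) ≤ (L ^ (k / 2)) ^ (2 * m) := by
      rw [pow_mul, hl2, ← Real.rpow_natCast, ← Real.rpow_mul hLp.le]
      apply Real.rpow_le_rpow_of_exponent_le hL1
      rw [div_le_iff₀ hk] at hm4
      linarith
    calc C1 / (L ^ (k / 2)) ^ (2 * m) ≤ C1 / L ^ (4:ℝ) := div_le_div_of_nonneg_left hC1.le (by positivity) g1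
      _ = C1 * L ^ (-4 : ℝ) := by
          rw [Real.rpow_neg hLp.le]
          rfl
      _ ≤ _ := by
          refine mul_le_mul_of_nonneg_right ?_ (by positivity)
          linarith
  · have h1 := hEt t ht hnt u hu
    -- the polynomial
    have hdp : DP (QX (Xk k T L)) (rk k T L) t =
        (wk k L : ℂ) * DP (QX (Real.log T / (1 + k) ^ a)) (fun p => ∑ i ∈ Finset.range J, rc (Real.log T / (1 + k) ^ (a + i)) p) t := by
      have hsub : QX (Real.log T / (1 + k) ^ a) ⊆ QX (Xk k T L) := fun p hp => by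
        rw [mem_QX] at hp ⊢
        exact ⟨hp.1, hp.2.trans n3⟩
      unfold DP
      rw [Finset.mul_sum, ← Finset.sum_subset hsub]
      · refine Finset.sum_congr rfl fun p hp => ?_
        rw [hrk p (mem_QX.1 hp).1]
        push_cast
        ring
      · intro p hp hnp
        have h0 : ∑ i ∈ Finset.range J, rc (Real.log T / (1 + k) ^ (a + i)) p = 0 := by
          refine Finset.sum_eq_zero fun i _ => ?_
          unfold rc
          rw [if_neg]
          intro h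
          apply hnp
          rw [mem_QX] at h ⊢
          refine ⟨h.1, h.2.trans ?_⟩
          exact div_le_div_of_nonneg_left hK.le (by positivity) (pow_le_pow_right₀ (by linarith) (by omega))
        rw [hrk p (mem_QX.1 hp).1, h0]
        simp
    rw [hSk, hdp, Complex.re_ofReal_mul, ← mul_sub, abs_mul, hwk, abs_of_pos (by positivity)]
    have hLk : L ^ (-(k / 2)) = 1 / L ^ (k / 2) := by
      rw [Real.rpow_neg hLp.le, one_div]
    have g2 : 1 / Real.log T ≤ 1 / L ^ (k / 2) := by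
      apply one_div_le_one_div_of_le (by positivity)
      refine le_trans ?_ hLT
      calc L ^ (k / 2) ≤ L ^ (1:ℝ) := Real.rpow_le_rpow_of_exponent_le hL1 (by linarith)
        _ = L := Real.rpow_one L
    have g3 : 0 < 1 / L ^ (k / 2) := by positivity
    calc 3 / (2 * (J:ℝ)) * |∑ i ∈ Finset.range J, SS (Real.log T / (1 + k) ^ (a + i)) u -
          (DP (QX (Real.log T / (1 + k) ^ a)) (fun p => ∑ i ∈ Finset.range J, rc (Real.log T / (1 + k) ^ (a + i)) p) t).re| ≤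
        3 / (2 * (J:ℝ)) * (C1 * (1 / L ^ (k / 2) + J / Real.log T)) := mul_le_mul_of_nonneg_left h1 (by positivity)
      _ = 3 / 2 * C1 * (1 / L ^ (k / 2) / J + 1 / Real.log T) := by field_simp
      _ ≤ 3 / 2 * C1 * (1 / L ^ (k / 2) + 1 / L ^ (k / 2)) := by
          have : 1 / L ^ (k / 2) / J ≤ 1 / L ^ (k / 2) := div_le_self g3.le hJ0
          gcongr
      _ = 3 * C1 * (1 / L ^ (k / 2)) := by ring
      _ ≤ _ := by
          rw [hLk]
          exact mul_le_mul_of_nonneg_right hC3 g3.le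

end Pool.Agent.Helper82.NS
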