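import Pool.Agent.Helper82.NS.Geo
import Pool.Agent.Helper82.NR.Thick
import Pool.Agent.Helper25.TX.SsSplit

/-!
# NS: the variation of a sum over primes over one mean spacing, by high moments
-/

set_option autoImplicit false
open MeasureTheory Set Filter Topology
open Pool.Agent.Helper57.TX

namespace Pool.Agent.Helper82.NS

open Pool.Agent.Helper49.TX (mom mom_tail DP_cont)
open Pool.Agent.Helper82.NR (thick_markov)

/-- the derivative -/
lemma DP_deriv (Q : Finset ℕ) (hQ : ∀ p ∈ Q, p.Prime) (r : ℕ → ℝ) (t : ℝ) :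
    HasDerivAt (DP Q r) (-Complex.I * DP Q (fun p => r p * Real.log p) t) t := by
  unfold DP
  rw [Finset.mul_sum]
  refine HasDerivAt.fun_sum fun p hp => ?_
  have hp0 : (p : ℂ) ≠ 0 := by exact_mod_cast (hQ p hp).ne_zero
  have h1 : HasDerivAt (fun z : ℂ => -((1 / 2 : ℂ) + z * Complex.I)) (-(1 * Complex.I)) (t : ℂ) :=
    (((hasDerivAt_id (t : ℂ)).mul_const Complex.I).const_add _).neg
  have h3 := ((h1.const_cpow (c := (p : ℂ)) (Or.inl hp0)).const_mul (r p : ℂ)).comp_ofReal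
  refine h3.congr_deriv ?_
  rw [← Complex.natCast_log]
  push_cast
  ring

lemma DP_diff {Q : Finset ℕ} (hQ : ∀ p ∈ Q, p.Prime) (r : ℕ → ℝ) {t u s : ℝ} (hu : |u - t| ≤ s) :
    ‖DP Q r u - DP Q r t‖ ≤ ∫ v in (t - s)..(t + s), ‖DP Q (fun p => r p * Real.log p) v‖ := by
  have hc : Continuous fun v => ‖DP Q (fun p => r p * Real.log p) v‖ := (DP_cont Q hQ _).norm
  have hi : ∀ a b : ℝ, IntervalIntegrable (fun v => ‖DP Q (fun p => r p * Real.log p) v‖) volume a b :=
    fun a b => hc.intervalIntegrable a b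
  have hcd : Continuous fun v => -Complex.I * DP Q (fun p => r p * Real.log p) v :=
    continuous_const.mul (DP_cont Q hQ _)
  have h1 : ∫ v in t..u, (-Complex.I * DP Q (fun p => r p * Real.log p) v) = DP Q r u - DP Q r t :=
    intervalIntegral.integral_eq_sub_of_hasDerivAt (fun x _ => DP_deriv Q hQ r x) (hcd.intervalIntegrable _ _)
  have h2 : ‖∫ v in t..u, (-Complex.I * DP Q (fun p => r p * Real.log p) v)‖ ≤
      |∫ v in t..u, ‖DP Q (fun p => r p * Real.log p) v‖| := by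
    refine (intervalIntegral.norm_integral_le_abs_integral_norm).trans (le_of_eq ?_)
    simp
  rw [h1] at h2
  refine h2.trans ?_
  rw [abs_le] at hu
  have h3 : |∫ v in t..u, ‖DP Q (fun p => r p * Real.log p) v‖| ≤
      |∫ v in (t - s)..(t + s), ‖DP Q (fun p => r p * Real.log p) v‖| := by
    refine intervalIntegral.abs_integral_mono_interval ?_ (Eventually.of_forall fun v => norm_nonneg _) (hi _ _)
    rw [uIoc_of_le (show t - s ≤ t + s by linarith)]
    rcases le_total t u with h | h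
    · rw [uIoc_of_le h]
      exact Ioc_subset_Ioc (by linarith) (by linarith)
    · rw [uIoc_of_ge h]
      exact Ioc_subset_Ioc (by linarith) (by linarith)
  refine h3.trans (le_of_eq (abs_of_nonneg ?_))
  exact intervalIntegral.integral_nonneg (by linarith) fun v _ => norm_nonneg _

/-- moments on the larger interval -/
theorem mom4 : ∃ T₀ : ℝ, ∀ T L : ℝ, T₀ ≤ T → 1 ≤ L → ∀ (Q : Finset ℕ) (r : ℕ → ℝ) (k : ℕ),
    (∀ p ∈ Q, p.Prime ∧ (p : ℝ) ≤ L) → L ^ k ≤ (T / 2) ^ (1 / 4 : ℝ) →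
    ∫ t in (T / 4)..(4 * T), ‖DP Q r t‖ ^ (2 * k) ≤ 8 * k.factorial * (∑ p ∈ Q, r p ^ 2 / p) ^ k * T := by
  obtain ⟨T0, h⟩ := mom
  refine ⟨max (2 * T0) 1, fun T L hT hL Q r k hQ hLk => ?_⟩
  have hT1 : 1 ≤ T := (le_max_right _ _).trans hT
  have hT2 : T0 ≤ T / 2 := by
    have := (le_max_left _ _).trans hT
    linarith
  have hLk' : L ^ k ≤ T ^ (1 / 4 : ℝ) := hLk.trans (Real.rpow_le_rpow (by linarith) (by linarith) (by norm_num))
  have hV0 : 0 ≤ ∑ p ∈ Q, r p ^ 2 / (p:ℝ) := Finset.sum_nonneg fun p _ => by positivity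
  rcases le_or_gt T T0 with hneg | hpos
  · -- T ≤ T0 : then T / 2 ≥ T0 ≥ T forces T ≤ 0
    linarith
  have h1 := h T L hpos.le hL Q r k hQ hLk'
  have h2 := h (T / 2) L hT2 hL Q r k hQ hLk
  have hc : Continuous fun t => ‖DP Q r t‖ ^ (2 * k) := (DP_cont Q (fun p hp => (hQ p hp).1) r).norm.pow _
  have hi : ∀ a b : ℝ, IntervalIntegrable (fun t => ‖DP Q r t‖ ^ (2 * k)) volume a b := fun a b => hc.intervalIntegrable a b
  have e1 : ∫ t in JJ T, ‖DP Q r t‖ ^ (2 * k) = ∫ t in (T / 2)..(4 * T), ‖DP Q r t‖ ^ (2 * k) := by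
    rw [intervalIntegral.integral_of_le (by linarith), JJ, integral_Icc_eq_integral_Ioc]
  have e2 : ∫ t in JJ (T / 2), ‖DP Q r t‖ ^ (2 * k) = ∫ t in (T / 4)..(2 * T), ‖DP Q r t‖ ^ (2 * k) := by
    rw [JJ, show T / 2 / 2 = T / 4 by ring, show 4 * (T / 2) = 2 * T by ring, integral_Icc_eq_integral_Ioc,
      intervalIntegral.integral_of_le (by linarith)]
  rw [e1] at h1
  rw [e2] at h2
  have e3 : ∫ t in (T / 4)..(4 * T), ‖DP Q r t‖ ^ (2 * k) =
      (∫ t in (T / 4)..(T / 2), ‖DP Q r t‖ ^ (2 * k)) + ∫ t in (T / 2)..(4 * T), ‖DP Q r t‖ ^ (2 * k) :=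
    (intervalIntegral.integral_add_adjacent_intervals (hi _ _) (hi _ _)).symm
  have e4 : ∫ t in (T / 4)..(T / 2), ‖DP Q r t‖ ^ (2 * k) ≤ ∫ t in (T / 4)..(2 * T), ‖DP Q r t‖ ^ (2 * k) := by
    have := intervalIntegral.integral_add_adjacent_intervals (hi (T / 4) (T / 2)) (hi (T / 2) (2 * T))
    have h5 : 0 ≤ ∫ t in (T / 2)..(2 * T), ‖DP Q r t‖ ^ (2 * k) :=
      intervalIntegral.integral_nonneg (by linarith) fun t _ => by positivity
    linarith
  have h6 : 0 ≤ 4 * (k.factorial : ℝ) * (∑ p ∈ Q, r p ^ 2 / (p:ℝ)) ^ k := by positivity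
  rw [e3]
  nlinarith

/-- pointwise: a power is dominated by a larger power -/
lemma pow_dom {g w : ℝ} (hg : 0 ≤ g) (hw : 0 < w) (m : ℕ) : g ≤ w + w * (g ^ (2 * m) / w ^ (2 * m)) ∨ m = 0 := by
  rcases Nat.eq_zero_or_pos m with h | h
  · exact Or.inr h
  · left
    rcases le_or_gt g w with h1 | h1
    · have : 0 ≤ w * (g ^ (2 * m) / w ^ (2 * m)) := by positivity
      linarith
    · have h2 : 1 ≤ g / w := (one_le_div hw).2 h1.le
      have h3 : g / w ≤ (g / w) ^ (2 * m) := le_self_pow₀ h2 (by omega)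
      rw [div_pow] at h3
      have h4 : w * (g / w) = g := by field_simp
      have h5 := mul_le_mul_of_nonneg_left h3 hw.le
      linarith

/-- The variation over `2 s` is small outside a small set. -/
theorem DP_var : ∃ T₀ : ℝ, ∀ T L : ℝ, T₀ ≤ T → 1 ≤ L → ∀ (Q : Finset ℕ) (r : ℕ → ℝ) (m : ℕ), 1 ≤ m →
    (∀ p ∈ Q, p.Prime ∧ (p : ℝ) ≤ L) → L ^ m ≤ (T / 2) ^ (1 / 4 : ℝ) → ∀ s w v V : ℝ, 0 ≤ s → s ≤ T / 4 → 0 < w → 0 < v →
    ∑ p ∈ Q, (r p * Real.log p) ^ 2 / p ≤ V →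
    ∃ E : Set ℝ, volume E ≤ ENNReal.ofReal (2 * s * w / v * (8 * m.factorial * (V / w ^ 2) ^ m) * T) ∧
      ∀ t ∈ Icc (T / 2) (3 * T), t ∉ E → ∀ u, |u - t| ≤ s → ‖DP Q r u - DP Q r t‖ ≤ 2 * s * w + v := by
  obtain ⟨T0, h⟩ := mom4
  refine ⟨T0, fun T L hT hL Q r m hm hQ hLm s w v V hs hsT hw hv hV => ?_⟩
  obtain ⟨g, hg⟩ : ∃ g : ℝ → ℝ, g = fun t => ‖DP Q (fun p => r p * Real.log p) t‖ ^ (2 * m) := ⟨_, rfl⟩
  have hgc : Continuous g := by
    rw [hg]
    exact (DP_cont Q (fun p hp => (hQ p hp).1) _).norm.pow _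
  have hg0 : ∀ t, 0 ≤ g t := fun t => by rw [hg]; positivity
  have hw2 : 0 < w ^ (2 * m) := by positivity
  refine ⟨{t : ℝ | t ∈ Icc (T / 2) (3 * T) ∧ v * w ^ (2 * m) / w ≤ ∫ u in (t - s)..(t + s), g u}, ?_, ?_⟩
  · refine (thick_markov hgc hg0 hs hsT (by positivity)).trans (ENNReal.ofReal_le_ofReal ?_)
    have h1 := h T L hT hL Q (fun p => r p * Real.log p) m hQ hLm
    have hV0 : 0 ≤ ∑ p ∈ Q, (r p * Real.log p) ^ 2 / (p:ℝ) := Finset.sum_nonneg fun p _ => by positivity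
    have hT0 : 0 ≤ T := by linarith
    have h2 : (∑ p ∈ Q, (r p * Real.log p) ^ 2 / (p:ℝ)) ^ m ≤ V ^ m := pow_le_pow_left₀ hV0 hV m
    have h3 : ∫ u in (T / 4)..(4 * T), g u ≤ 8 * m.factorial * V ^ m * T := by
      rw [hg]
      refine h1.trans ?_
      gcongr
    calc 2 * s * (∫ u in (T / 4)..(4 * T), g u) / (v * w ^ (2 * m) / w) ≤
        2 * s * (8 * m.factorial * V ^ m * T) / (v * w ^ (2 * m) / w) := by gcongr
      _ = _ := by
          rw [div_pow, ← pow_mul]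
          field_simp
  · intro t ht hnt u hu
    refine (DP_diff (fun p hp => (hQ p hp).1) r hu).trans ?_
    have h4 : ∫ u in (t - s)..(t + s), g u < v * w ^ (2 * m) / w := by
      by_contra hcon
      rw [not_lt] at hcon
      exact hnt ⟨ht, hcon⟩
    have hc1 : Continuous fun v => ‖DP Q (fun p => r p * Real.log p) v‖ := (DP_cont Q (fun p hp => (hQ p hp).1) _).norm
    have h5 : ∫ v in (t - s)..(t + s), ‖DP Q (fun p => r p * Real.log p) v‖ ≤
        ∫ v in (t - s)..(t + s), (w + w / w ^ (2 * m) * g v) := by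
      refine intervalIntegral.integral_mono_on (by linarith) (hc1.intervalIntegrable _ _)
        ((continuous_const.add (continuous_const.mul hgc)).intervalIntegrable _ _) fun x _ => ?_
      rcases pow_dom (g := ‖DP Q (fun p => r p * Real.log p) x‖) (norm_nonneg _) hw m with h6 | h6
      · refine h6.trans (le_of_eq ?_)
        rw [hg]
        field_simp
      · omega
    refine h5.trans ?_
    have i1 : IntervalIntegrable (fun _ : ℝ => w) volume (t - s) (t + s) := by simp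
    have i2 : IntervalIntegrable (fun v => w / w ^ (2 * m) * g v) volume (t - s) (t + s) :=
      (continuous_const.mul hgc).intervalIntegrable _ _
    rw [intervalIntegral.integral_add i1 i2, intervalIntegral.integral_const, intervalIntegral.integral_const_mul,
      smul_eq_mul]
    have h7 : w / w ^ (2 * m) * ∫ u in (t - s)..(t + s), g u ≤ w / w ^ (2 * m) * (v * w ^ (2 * m) / w) :=
      mul_le_mul_of_nonneg_left h4.le (by positivity)
    have h8 : w / w ^ (2 * m) * (v * w ^ (2 * m) / w) = v := by field_simp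
    have h9 : (t + s - (t - s)) * w = 2 * s * w := by ring
    linarith

end Pool.Agent.Helper82.NS
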