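import Pool.Agent.Helper82.NS.Sq

/-!
# NS: the sum of the prime sums over the scales, at all points near `t`, against its main part at `t`
-/

set_option autoImplicit false
open MeasureTheory Set Filter Topology
open Pool.Agent.Helper57.TX
open Pool.Agent.Helper54.LG (SS)

namespace Pool.Agent.Helper82.NS

open Pool.Agent.Helper64.TX (mem_QX)
open Pool.Agent.Helper49.TX (mom_tail DP_cont)
open Pool.Agent.Helper82.NR (rc rs_bd rc_nonneg DP_rc DP_sum)
open Pool.Agent.Helper25.TX (rq ss_split logp_sum DP_re)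

theorem gen (q : ℝ) (hq : 1 < q) (m : ℕ) (hm : 1 ≤ m) : ∃ C T₀ : ℝ, 0 < C ∧ ∀ (T l : ℝ) (a J : ℕ), T₀ ≤ T → 1 ≤ l →
    l ^ 2 ≤ q ^ a → l ^ 2 ≤ q * (Real.log T / q ^ (a + J)) → (8 * m : ℝ) ≤ q ^ a → 1 / 2 ≤ Real.log T / q ^ (a + J) →
    ∃ E : Set ℝ, volume E ≤ ENNReal.ofReal (C / l ^ (2 * m) * T) ∧
      ∀ t ∈ Icc (T / 2) (3 * T), t ∉ E → ∀ u, |u - t| ≤ 2 * Real.pi / Real.log T →
        |∑ i ∈ Finset.range J, SS (Real.log T / q ^ (a + i)) u -
          (DP (QX (Real.log T / q ^ a)) (fun p => ∑ i ∈ Finset.range J, rc (Real.log T / q ^ (a + i)) p) t).re| ≤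
        C * (1 / l + J / Real.log T) := by
  obtain ⟨T1, hvar⟩ := DP_var
  obtain ⟨T2, hsqt⟩ := sq_tail
  obtain ⟨Cs, hCs, hsplit⟩ := ss_split
  obtain ⟨Cv, hCv, hsqv⟩ := sq_var q hq
  obtain ⟨Cd, hCd, hderv⟩ := der_var q hq
  obtain ⟨E0, hE0, hvary⟩ := sq_vary
  have hq0 : 0 < q := by linarith
  have hq1 : 0 < q - 1 := by linarith
  have hpi := Real.pi_pos
  obtain ⟨T3, hT3⟩ := eventually_atTop.mp (Real.tendsto_log_atTop.eventually_ge_atTop (2 * Real.pi + 2))
  obtain ⟨A, hA⟩ : ∃ A : ℝ, A = 32 * Real.pi * m.factorial * Cd ^ m := ⟨_, rfl⟩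
  obtain ⟨B, hB⟩ : ∃ B : ℝ, B = 8 * m.factorial * (Cv * q ^ 2) ^ m := ⟨_, rfl⟩
  have hA0 : 0 ≤ A := by rw [hA]; positivity
  have hB0 : 0 ≤ B := by rw [hB]; positivity
  obtain ⟨G, hG⟩ : ∃ G : ℝ, G = 4 * Real.pi + 2 + 2 * Real.pi * (q / (q - 1)) + 4 * Real.pi * E0 + Cs * (q / (q - 1)) := ⟨_, rfl⟩
  have hG0 : 0 < G := by rw [hG]; positivity
  refine ⟨A + B + G, max (max T1 T2) (max T3 4), by positivity, fun T l a J hT hl hla hlX hma hX => ?_⟩
  have hTa : T1 ≤ T := (le_max_left _ _).trans ((le_max_left _ _).trans hT)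
  have hTb : T2 ≤ T := (le_max_right _ _).trans ((le_max_left _ _).trans hT)
  have hTc : 2 * Real.pi + 2 ≤ Real.log T := hT3 T ((le_max_left _ _).trans ((le_max_right _ _).trans hT))
  have hTd : 4 ≤ T := (le_max_right _ _).trans ((le_max_right _ _).trans hT)
  have hTp : 0 < T := by linarith
  obtain ⟨K, hK⟩ : ∃ K : ℝ, K = Real.log T := ⟨_, rfl⟩
  rw [← hK] at hlX hX hTc ⊢
  have hK0 : 0 < K := by linarith
  obtain ⟨X, hXd⟩ : ∃ X : ℕ → ℝ, X = fun i => K / q ^ (a + i) := ⟨_, rfl⟩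
  have hXp : ∀ i, 0 < X i := fun i => by rw [hXd]; positivity
  have hX0 : X 0 = K / q ^ a := by rw [hXd]; simp
  have hXJ : X J = K / q ^ (a + J) := by rw [hXd]
  have hXmono : ∀ i j, i ≤ j → X j ≤ X i := by
    intro i j hij
    rw [hXd]
    exact div_le_div_of_nonneg_left hK0.le (by positivity) (pow_le_pow_right₀ hq.le (by omega))
  have hXhalf : ∀ i, i ≤ J → 1 / 2 ≤ X i := fun i hi => by
    refine le_trans ?_ (hXmono i J hi)
    rw [hXJ]
    exact hX
  obtain ⟨s, hs⟩ : ∃ s : ℝ, s = 2 * Real.pi / K := ⟨_, rfl⟩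
  have hs0 : 0 < s := by rw [hs]; positivity
  have hs1 : s ≤ 1 := by
    rw [hs, div_le_one hK0]
    linarith
  have hl0 : 0 < l := by linarith
  -- lengths
  have hlen : ∀ Y : ℝ, Y ≤ X 0 → Real.exp Y ^ m ≤ (T / 2) ^ (1 / 4 : ℝ) := by
    intro Y hY
    rw [← Real.exp_nat_mul, Real.rpow_def_of_pos (by positivity), Real.exp_le_exp,
      Real.log_div hTp.ne' (by norm_num), ← hK]
    have hl2 := Real.log_two_lt_d9
    have h1 : (m:ℝ) * Y ≤ m * (K / q ^ a) := by
      rw [← hX0]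
      exact mul_le_mul_of_nonneg_left hY (Nat.cast_nonneg _)
    have h2 : (m:ℝ) * (K / q ^ a) ≤ K / 8 := by
      rw [← mul_div_assoc, div_le_div_iff₀ (by positivity) (by norm_num)]
      nlinarith
    linarith
  -- first exceptional set
  have hXq : ∀ p ∈ QX (X 0), p.Prime ∧ (p:ℝ) ≤ Real.exp (X 0) := by
    intro p hp
    obtain ⟨g1, g2⟩ := mem_QX.1 hp
    have hp0 : (0:ℝ) < p := by exact_mod_cast g1.pos
    exact ⟨g1, (Real.log_le_iff_le_exp hp0).1 g2⟩
  have hd := hderv K a J hK0 (by rw [← hX0]; exact hXhalf 0 (Nat.zero_le _))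
  rw [← hX0] at hd
  obtain ⟨E1, hE1, hE1t⟩ := hvar T (Real.exp (X 0)) hTa (Real.one_le_exp (hXp 0).le) (QX (X 0))
    (fun p => ∑ i ∈ Finset.range J, rc (K / q ^ (a + i)) p) m hm hXq (hlen (X 0) le_rfl) s (X 0 * l) (1 / l)
    (Cd * X 0 ^ 2) hs0.le (by linarith) (mul_pos (hXp 0) hl0) (by positivity) hd
  -- second exceptional set
  have hXq2 : ∀ p ∈ QX (X 0 / 2), p.Prime ∧ (p:ℝ) ≤ Real.exp (X 0 / 2) := by
    intro p hp
    obtain ⟨g1, g2⟩ := mem_QX.1 hp
    have hp0 : (0:ℝ) < p := by exact_mod_cast g1.pos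
    exact ⟨g1, (Real.log_le_iff_le_exp hp0).1 g2⟩
  have hlen2 : Real.exp (X 0 / 2) ^ m ≤ T ^ (1 / 4 : ℝ) :=
    (hlen (X 0 / 2) (by linarith [hXp 0])).trans (Real.rpow_le_rpow (by linarith) (by linarith) (by norm_num))
  have h2 := hsqt T (Real.exp (X 0 / 2)) hTb (Real.one_le_exp (by linarith [hXp 0])) (QX (X 0 / 2))
    (fun p => ∑ i ∈ Finset.range J, rqc (K / q ^ (a + i)) p) m hXq2 hlen2 (1 / l) (by positivity)
  have hsv := hsqv K a J hK0 (QX (X 0 / 2)) (fun p hp => (mem_QX.1 hp).1)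
  rw [← hXJ] at hsv
  obtain ⟨E2, hE2⟩ : ∃ E2 : Set ℝ, E2 = {t : ℝ | t ∈ JJ T ∧ 1 / l ≤
      ‖DP (QX (X 0 / 2)) (fun p => ∑ i ∈ Finset.range J, rqc (K / q ^ (a + i)) p) (2 * t)‖} := ⟨_, rfl⟩
  rw [← hE2] at h2
  have hsl : s * X 0 = 2 * Real.pi / q ^ a := by
    rw [hs, hX0]
    field_simp
  have hqa : 0 < q ^ a := by positivity
  have hlq : l / q ^ a ≤ 1 / l := by
    rw [div_le_div_iff₀ hqa hl0]
    nlinarith
  refine ⟨E1 ∪ E2, ?_, ?_⟩
  · refine (measure_union_le _ _).trans ((add_le_add hE1 h2).trans ?_)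
    rw [← ENNReal.ofReal_add]
    · refine ENNReal.ofReal_le_ofReal ?_
      rw [← add_mul]
      refine mul_le_mul_of_nonneg_right ?_ hTp.le
      have e1 : 2 * s * (X 0 * l) / (1 / l) * (8 * m.factorial * (Cd * X 0 ^ 2 / (X 0 * l) ^ 2) ^ m) ≤ A / l ^ (2 * m) := by
        have g1 : 2 * s * (X 0 * l) / (1 / l) ≤ 4 * Real.pi := by
          have : 2 * s * (X 0 * l) / (1 / l) = 4 * Real.pi * (l ^ 2 / q ^ a) := by
            calc 2 * s * (X 0 * l) / (1 / l) = 2 * (s * X 0) * l ^ 2 := by field_simp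
              _ = _ := by rw [hsl]; ring
          rw [this]
          have : l ^ 2 / q ^ a ≤ 1 := (div_le_one hqa).2 hla
          nlinarith
        have g2 : Cd * X 0 ^ 2 / (X 0 * l) ^ 2 = Cd / l ^ 2 := by
          have := (hXp 0).ne'
          field_simp
        rw [g2, div_pow, ← pow_mul, hA]
        have g3 : 0 ≤ 8 * (m.factorial : ℝ) * (Cd ^ m / l ^ (2 * m)) := by positivity
        calc 2 * s * (X 0 * l) / (1 / l) * (8 * m.factorial * (Cd ^ m / l ^ (2 * m))) ≤
            4 * Real.pi * (8 * m.factorial * (Cd ^ m / l ^ (2 * m))) := mul_le_mul_of_nonneg_right g1 g3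
          _ = _ := by ring
      have e2 : 8 * (m.factorial : ℝ) * ((∑ p ∈ QX (X 0 / 2), (∑ i ∈ Finset.range J, rqc (K / q ^ (a + i)) p) ^ 2 / (p:ℝ)) /
          (1 / l) ^ 2) ^ m ≤ B / l ^ (2 * m) := by
        have g1 : (∑ p ∈ QX (X 0 / 2), (∑ i ∈ Finset.range J, rqc (K / q ^ (a + i)) p) ^ 2 / (p:ℝ)) / (1 / l) ^ 2 ≤
            Cv * q ^ 2 / l ^ 2 := by
          have g2 : l ^ 4 ≤ q ^ 2 * X J ^ 2 := by
            have g3 : l ^ 2 ≤ q * X J := by rw [hXJ]; exact hlX
            calc l ^ 4 = (l ^ 2) ^ 2 := by ring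
              _ ≤ (q * X J) ^ 2 := pow_le_pow_left₀ (by positivity) g3 2
              _ = _ := by ring
          have hXJp := hXp J
          calc (∑ p ∈ QX (X 0 / 2), (∑ i ∈ Finset.range J, rqc (K / q ^ (a + i)) p) ^ 2 / (p:ℝ)) / (1 / l) ^ 2 ≤
              (Cv / X J ^ 2) / (1 / l) ^ 2 := div_le_div_of_nonneg_right hsv (by positivity)
            _ = Cv * l ^ 2 / X J ^ 2 := by field_simp
            _ ≤ Cv * q ^ 2 / l ^ 2 := by
                rw [div_le_div_iff₀ (by positivity) (by positivity)]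
                calc Cv * l ^ 2 * l ^ 2 = Cv * l ^ 4 := by ring
                  _ ≤ Cv * (q ^ 2 * X J ^ 2) := mul_le_mul_of_nonneg_left g2 hCv.le
                  _ = _ := by ring
        have g4 : 0 ≤ (∑ p ∈ QX (X 0 / 2), (∑ i ∈ Finset.range J, rqc (K / q ^ (a + i)) p) ^ 2 / (p:ℝ)) / (1 / l) ^ 2 :=
          div_nonneg (Finset.sum_nonneg fun p _ => by positivity) (by positivity)
        calc 8 * (m.factorial : ℝ) * ((∑ p ∈ QX (X 0 / 2), (∑ i ∈ Finset.range J, rqc (K / q ^ (a + i)) p) ^ 2 / (p:ℝ)) /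
              (1 / l) ^ 2) ^ m ≤ 8 * (m.factorial : ℝ) * (Cv * q ^ 2 / l ^ 2) ^ m := by
              have := pow_le_pow_left₀ g4 g1 m
              gcongr
          _ = B / l ^ (2 * m) := by
              rw [hB, div_pow, ← pow_mul]
              ring
      have e3 : 0 ≤ G / l ^ (2 * m) := by positivity
      have e4 : (A + B + G) / l ^ (2 * m) = A / l ^ (2 * m) + B / l ^ (2 * m) + G / l ^ (2 * m) := by ring
      rw [e4]
      linarith
    · have := hXp 0
      positivity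
    · have : 0 ≤ ∑ p ∈ QX (X 0 / 2), (∑ i ∈ Finset.range J, rqc (K / q ^ (a + i)) p) ^ 2 / (p:ℝ) :=
        Finset.sum_nonneg fun p _ => by positivity
      positivity
  · intro t ht hnt u hu
    rw [mem_union, not_or] at hnt
    obtain ⟨n1, n2⟩ := hnt
    rw [← hs] at hu
    have htJ : t ∈ JJ T := by
      unfold JJ
      exact ⟨ht.1, by linarith [ht.2]⟩
    have f1 := hE1t t ht n1 u hu
    have f2 : ‖DP (QX (X 0 / 2)) (fun p => ∑ i ∈ Finset.range J, rqc (K / q ^ (a + i)) p) (2 * t)‖ ≤ 1 / l := by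
      by_contra hgt
      rw [not_le] at hgt
      rw [hE2] at n2
      exact n2 ⟨htJ, hgt.le⟩
    have hm1 : ∀ i, DP (QX (X i)) (rs (X i)) u = DP (QX (X 0)) (rc (X i)) u := fun i => DP_rc (hXmono 0 i (Nat.zero_le _)) u
    have hm2 : ∀ i, DP (QX (X i / 2)) (rq (X i)) (2 * t) = DP (QX (X 0 / 2)) (rqc (X i)) (2 * t) :=
      fun i => DP_rqc (hXmono 0 i (Nat.zero_le _)) (2 * t)
    -- the decomposition
    have dec : ∑ i ∈ Finset.range J, SS (K / q ^ (a + i)) u -
          (DP (QX (K / q ^ a)) (fun p => ∑ i ∈ Finset.range J, rc (K / q ^ (a + i)) p) t).re =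
        (DP (QX (X 0)) (fun p => ∑ i ∈ Finset.range J, rc (K / q ^ (a + i)) p) u -
          DP (QX (X 0)) (fun p => ∑ i ∈ Finset.range J, rc (K / q ^ (a + i)) p) t).re +
        (DP (QX (X 0 / 2)) (fun p => ∑ i ∈ Finset.range J, rqc (K / q ^ (a + i)) p) (2 * t)).re +
        ∑ i ∈ Finset.range J, ((DP (QX (X i / 2)) (rq (X i)) (2 * u)).re - (DP (QX (X i / 2)) (rq (X i)) (2 * t)).re) +
        ∑ i ∈ Finset.range J, (SS (X i) u - (DP (QX (X i)) (rs (X i)) u).re - (DP (QX (X i / 2)) (rq (X i)) (2 * u)).re) := by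
      have g1 : DP (QX (X 0)) (fun p => ∑ i ∈ Finset.range J, rc (K / q ^ (a + i)) p) u =
          ∑ i ∈ Finset.range J, DP (QX (X i)) (rs (X i)) u := by
        rw [Finset.sum_congr rfl fun i _ => hm1 i, DP_sum, hXd]
      have g2 : DP (QX (X 0 / 2)) (fun p => ∑ i ∈ Finset.range J, rqc (K / q ^ (a + i)) p) (2 * t) =
          ∑ i ∈ Finset.range J, DP (QX (X i / 2)) (rq (X i)) (2 * t) := by
        rw [Finset.sum_congr rfl fun i _ => hm2 i, DP_sum, hXd]
      have g3 : ∑ i ∈ Finset.range J, SS (K / q ^ (a + i)) u = ∑ i ∈ Finset.range J, SS (X i) u := by rw [hXd]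
      rw [g1, g2, g3, Complex.sub_re, Complex.re_sum, Complex.re_sum, Finset.sum_sub_distrib, Finset.sum_sub_distrib,
        Finset.sum_sub_distrib, hX0]
      ring
    rw [dec]
    have b1 : |(DP (QX (X 0)) (fun p => ∑ i ∈ Finset.range J, rc (K / q ^ (a + i)) p) u -
          DP (QX (X 0)) (fun p => ∑ i ∈ Finset.range J, rc (K / q ^ (a + i)) p) t).re| ≤ (4 * Real.pi + 1) * (1 / l) := by
      refine (Complex.abs_re_le_norm _).trans (f1.trans ?_)
      have : 2 * s * (X 0 * l) = 4 * Real.pi * (l / q ^ a) := by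
        calc 2 * s * (X 0 * l) = 2 * (s * X 0) * l := by ring
          _ = _ := by rw [hsl]; ring
      rw [this]
      have := mul_le_mul_of_nonneg_left hlq (by positivity : 0 ≤ 4 * Real.pi)
      linarith
    have b2 : |(DP (QX (X 0 / 2)) (fun p => ∑ i ∈ Finset.range J, rqc (K / q ^ (a + i)) p) (2 * t)).re| ≤ 1 / l :=
      (Complex.abs_re_le_norm _).trans f2
    have b3 : |∑ i ∈ Finset.range J, ((DP (QX (X i / 2)) (rq (X i)) (2 * u)).re - (DP (QX (X i / 2)) (rq (X i)) (2 * t)).re)| ≤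
        2 * Real.pi * (q / (q - 1)) * (1 / l) + 4 * Real.pi * E0 * (J / K) := by
      refine (Finset.abs_sum_le_sum_abs _ _).trans ((Finset.sum_le_sum fun i _ => hvary (X i) t u s (hXp i) hu).trans ?_)
      rw [← Finset.mul_sum, Finset.sum_add_distrib, Finset.sum_const, Finset.card_range, nsmul_eq_mul]
      have g1 : ∑ i ∈ Finset.range J, X i ≤ X 0 * (q / (q - 1)) := by
        have g2 : ∀ i, X i = X 0 * (q⁻¹) ^ i := by
          intro i
          rw [hXd]
          show K / q ^ (a + i) = K / q ^ (a + 0) * q⁻¹ ^ i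
          rw [add_zero, pow_add, inv_pow]
          field_simp
        rw [Finset.sum_congr rfl fun i _ => g2 i, ← Finset.mul_sum]
        refine mul_le_mul_of_nonneg_left ?_ (hXp 0).le
        have g3 : q⁻¹ < 1 := inv_lt_one_of_one_lt₀ hq
        have g4 : (0:ℝ) ≤ q⁻¹ := by positivity
        have g5 := Summable.sum_le_tsum (Finset.range J) (fun k _ => pow_nonneg g4 k) (summable_geometric_of_lt_one g4 g3)
        rw [tsum_geometric_of_lt_one g4 g3] at g5
        refine g5.trans (le_of_eq ?_)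
        field_simp
      have g6 : s * X 0 ≤ 2 * Real.pi * (1 / l) := by
        rw [hsl]
        have : 1 / q ^ a ≤ 1 / l := by
          refine le_trans ?_ hlq
          exact div_le_div_of_nonneg_right hl hqa.le
        calc 2 * Real.pi / q ^ a = 2 * Real.pi * (1 / q ^ a) := by ring
          _ ≤ _ := mul_le_mul_of_nonneg_left this (by positivity)
      have g7 : s * ∑ i ∈ Finset.range J, X i ≤ 2 * Real.pi * (q / (q - 1)) * (1 / l) := by
        calc s * ∑ i ∈ Finset.range J, X i ≤ s * (X 0 * (q / (q - 1))) := mul_le_mul_of_nonneg_left g1 hs0.le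
          _ = (s * X 0) * (q / (q - 1)) := by ring
          _ ≤ (2 * Real.pi * (1 / l)) * (q / (q - 1)) := mul_le_mul_of_nonneg_right g6 (by positivity)
          _ = _ := by ring
      have g8 : s * (J * (2 * E0)) = 4 * Real.pi * E0 * (J / K) := by
        rw [hs]
        ring
      rw [mul_add, g8]
      linarith
    have b4 : |∑ i ∈ Finset.range J, (SS (X i) u - (DP (QX (X i)) (rs (X i)) u).re - (DP (QX (X i / 2)) (rq (X i)) (2 * u)).re)| ≤
        Cs * (q / (q - 1)) * (1 / l) := by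
      refine (Finset.abs_sum_le_sum_abs _ _).trans ((Finset.sum_le_sum (g := fun i => Cs * (K / q ^ (a + i))⁻¹) fun i hi => ?_).trans ?_)
      · refine (hsplit (X i) u (hXhalf i (Finset.mem_range.1 hi).le)).trans (le_of_eq ?_)
        rw [hXd, div_eq_mul_inv]
      · rw [← Finset.mul_sum]
        have g1 := geo_inv hq hK0 a J
        have g2 : (K / q ^ (a + J))⁻¹ ≤ q * (1 / l) := by
          rw [← hXJ]
          have g3 : l ^ 2 ≤ q * X J := by rw [hXJ]; exact hlX
          have hXJp := hXp J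
          rw [inv_eq_one_div, div_le_iff₀ hXJp]
          have g4 : l ≤ q * X J := by nlinarith
          calc (1:ℝ) = l * (1 / l) := by field_simp
            _ ≤ q * X J * (1 / l) := mul_le_mul_of_nonneg_right g4 (by positivity)
            _ = _ := by ring
        calc Cs * ∑ i ∈ Finset.range J, (K / q ^ (a + i))⁻¹ ≤ Cs * ((q - 1)⁻¹ * (K / q ^ (a + J))⁻¹) :=
              mul_le_mul_of_nonneg_left g1 hCs.le
          _ ≤ Cs * ((q - 1)⁻¹ * (q * (1 / l))) := by gcongr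
          _ = _ := by
              rw [div_eq_mul_inv q (q - 1)]
              ring
    refine (abs_add_le _ _).trans ((add_le_add ((abs_add_le _ _).trans (add_le_add ((abs_add_le _ _).trans
      (add_le_add b1 b2)) b3)) b4).trans ?_)
    have hJK : (0:ℝ) ≤ J / K := by positivity
    have hll : 0 ≤ 1 / l := by positivity
    have h9 : (4 * Real.pi + 1) * (1 / l) + 1 / l + (2 * Real.pi * (q / (q - 1)) * (1 / l) + 4 * Real.pi * E0 * (J / K)) +
        Cs * (q / (q - 1)) * (1 / l) ≤ G * (1 / l + J / K) := by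
      have g1 : 4 * Real.pi * E0 ≤ G := by
        rw [hG]
        have : 0 ≤ q / (q - 1) := by positivity
        nlinarith [mul_nonneg (mul_nonneg (by norm_num : (0:ℝ) ≤ 2) hpi.le) this, mul_nonneg hCs.le this]
      have g2 : (4 * Real.pi + 2 + 2 * Real.pi * (q / (q - 1)) + Cs * (q / (q - 1))) ≤ G := by
        rw [hG]
        have : 0 ≤ 4 * Real.pi * E0 := by positivity
        linarith
      calc _ = (4 * Real.pi + 2 + 2 * Real.pi * (q / (q - 1)) + Cs * (q / (q - 1))) * (1 / l) + 4 * Real.pi * E0 * (J / K) := by ring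
        _ ≤ G * (1 / l) + G * (J / K) := add_le_add (mul_le_mul_of_nonneg_right g2 hll) (mul_le_mul_of_nonneg_right g1 hJK)
        _ = _ := by ring
    refine h9.trans ?_
    exact mul_le_mul_of_nonneg_right (by linarith) (by positivity)

end Pool.Agent.Helper82.NS
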