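import Pool.Agent.Helper82.NS.Der
import Pool.Agent.Helper82.NR.Tail

/-!
# NS: squares of primes in the sum over the scales; the whole sum against its main part
-/

set_option autoImplicit false
open MeasureTheory Set Filter Topology
open Pool.Agent.Helper57.TX
open Pool.Agent.Helper54.LG (SS)

namespace Pool.Agent.Helper82.NS

open Pool.Agent.Helper64.TX (mem_QX)
open Pool.Agent.Helper49.TX (mom_tail DP_cont)
open Pool.Agent.Helper82.NR (rc rs_bd rc_nonneg DP_rc DP_sum)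
open Pool.Agent.Helper25.TX (rq ss_split logp_sum DP_re)

/-- coefficient of the squares of primes, cut off -/
noncomputable def rqc (X : ℝ) (p : ℕ) : ℝ := if p ∈ QX (X / 2) then rq X p else 0

lemma rq_bd {X : ℝ} (hX : 0 < X) {p : ℕ} (hp : p ∈ QX (X / 2)) : 0 ≤ rq X p ∧ rq X p ≤ 2 / X * (Real.log p / √p) := by
  obtain ⟨hp1, hp2⟩ := mem_QX.1 hp
  have hl : 0 ≤ Real.log p := Real.log_natCast_nonneg p
  have hq0 : 0 ≤ 1 - 2 * Real.log p / X := by
    rw [sub_nonneg, div_le_one hX]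
    linarith
  have hq1 : 1 - 2 * Real.log p / X ≤ 1 := by
    have : 0 ≤ 2 * Real.log p / X := by positivity
    linarith
  unfold rq
  have h3 : (1 - 2 * Real.log p / X) ^ 2 ≤ 1 := pow_le_one₀ hq0 hq1
  exact ⟨by positivity, mul_le_of_le_one_right (by positivity) h3⟩

lemma rqc_bd {X : ℝ} (hX : 0 < X) (p : ℕ) : 0 ≤ rqc X p ∧ rqc X p ≤ 2 / X * (Real.log p / √p) := by
  have hl : 0 ≤ Real.log p := Real.log_natCast_nonneg p
  unfold rqc
  split_ifs with h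
  · exact rq_bd hX h
  · exact ⟨le_rfl, by positivity⟩

lemma DP_rqc {X Y : ℝ} (hXY : X ≤ Y) (t : ℝ) : DP (QX (X / 2)) (rq X) t = DP (QX (Y / 2)) (rqc X) t := by
  unfold DP
  have hsub : QX (X / 2) ⊆ QX (Y / 2) := fun p hp => by
    rw [mem_QX] at hp ⊢
    exact ⟨hp.1, hp.2.trans (by linarith)⟩
  rw [← Finset.sum_subset hsub]
  · refine Finset.sum_congr rfl fun p hp => ?_
    unfold rqc
    rw [if_pos hp]
  · intro p _ hp
    unfold rqc
    rw [if_neg hp]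
    simp

/-- variance of the squares -/
theorem sq_var (q : ℝ) (hq : 1 < q) : ∃ C : ℝ, 0 < C ∧ ∀ (K : ℝ) (a J : ℕ), 0 < K → ∀ Q : Finset ℕ, (∀ p ∈ Q, p.Prime) →
    ∑ p ∈ Q, (∑ i ∈ Finset.range J, rqc (K / q ^ (a + i)) p) ^ 2 / p ≤ C / (K / q ^ (a + J)) ^ 2 := by
  obtain ⟨C, hC, hs⟩ := logp_sum
  have hq0 : 0 < q := by linarith
  have hq1 : 0 < q - 1 := by linarith
  refine ⟨(2 / (q - 1)) ^ 2 * (2 * C), by positivity, fun K a J hK Q hQ => ?_⟩
  have h1 : ∀ p ∈ Q, (∑ i ∈ Finset.range J, rqc (K / q ^ (a + i)) p) ^ 2 / (p:ℝ) ≤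
      (2 / (q - 1)) ^ 2 * 2 / (K / q ^ (a + J)) ^ 2 * (Real.log p / ((p:ℝ) * √p)) := by
    intro p hp
    have hp0 : (0:ℝ) < p := by exact_mod_cast (hQ p hp).pos
    have hl : 0 ≤ Real.log p := Real.log_natCast_nonneg p
    have h2 : ∑ i ∈ Finset.range J, rqc (K / q ^ (a + i)) p ≤ 2 / (q - 1) / (K / q ^ (a + J)) * (Real.log p / √p) := by
      calc ∑ i ∈ Finset.range J, rqc (K / q ^ (a + i)) p ≤ ∑ i ∈ Finset.range J, 2 * (Real.log p / √p) * (K / q ^ (a + i))⁻¹ := by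
            refine Finset.sum_le_sum fun i _ => ((rqc_bd (by positivity) p).2).trans (le_of_eq ?_)
            rw [div_eq_mul_inv]
            ring
        _ = 2 * (Real.log p / √p) * ∑ i ∈ Finset.range J, (K / q ^ (a + i))⁻¹ := by rw [Finset.mul_sum]
        _ ≤ 2 * (Real.log p / √p) * ((q - 1)⁻¹ * (K / q ^ (a + J))⁻¹) :=
            mul_le_mul_of_nonneg_left (geo_inv hq hK a J) (by positivity)
        _ = _ := by
            rw [div_eq_mul_inv, div_eq_mul_inv 2 (q - 1)]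
            ring
    have h3 : 0 ≤ ∑ i ∈ Finset.range J, rqc (K / q ^ (a + i)) p :=
      Finset.sum_nonneg fun i _ => (rqc_bd (by positivity) p).1
    have h4 : Real.log p ≤ 2 * √p := by
      have := Real.log_le_rpow_div hp0.le (ε := 1 / 2) (by norm_num)
      rw [← Real.sqrt_eq_rpow] at this
      linarith
    have h5 : Real.log p / √p ≤ 2 := by
      rw [div_le_iff₀ (by positivity)]
      exact h4
    have h6 : √(p:ℝ) ^ 2 = p := Real.sq_sqrt hp0.le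
    calc (∑ i ∈ Finset.range J, rqc (K / q ^ (a + i)) p) ^ 2 / (p:ℝ) ≤
        (2 / (q - 1) / (K / q ^ (a + J)) * (Real.log p / √p)) ^ 2 / (p:ℝ) :=
          div_le_div_of_nonneg_right (pow_le_pow_left₀ h3 h2 2) hp0.le
      _ = (2 / (q - 1)) ^ 2 / (K / q ^ (a + J)) ^ 2 * (Real.log p / √p * (Real.log p / ((p:ℝ) * √p))) := by
          field_simp
      _ ≤ (2 / (q - 1)) ^ 2 / (K / q ^ (a + J)) ^ 2 * (2 * (Real.log p / ((p:ℝ) * √p))) := by gcongr
      _ = _ := by ring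
  refine (Finset.sum_le_sum h1).trans ?_
  rw [← Finset.mul_sum]
  calc (2 / (q - 1)) ^ 2 * 2 / (K / q ^ (a + J)) ^ 2 * ∑ p ∈ Q, Real.log p / ((p:ℝ) * √p) ≤
      (2 / (q - 1)) ^ 2 * 2 / (K / q ^ (a + J)) ^ 2 * C := by
        have := hs Q hQ
        gcongr
    _ = _ := by ring

/-- variance of the derivative of the main part -/
theorem der_var (q : ℝ) (hq : 1 < q) : ∃ C : ℝ, 0 < C ∧ ∀ (K : ℝ) (a J : ℕ), 0 < K → 1 / 2 ≤ K / q ^ a →
    ∑ p ∈ QX (K / q ^ a), ((∑ i ∈ Finset.range J, rc (K / q ^ (a + i)) p) * Real.log p) ^ 2 / p ≤ C * (K / q ^ a) ^ 2 := by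
  obtain ⟨E, hE, hs⟩ := mert_small
  have hq0 : 0 < q := by linarith
  have hq1 : 0 < q - 1 := by linarith
  refine ⟨(2 / 3 * (q / (q - 1))) ^ 2 * (1 + 2 * E), by positivity, fun K a J hK hX => ?_⟩
  obtain ⟨X, hXd⟩ : ∃ X : ℝ, X = K / q ^ a := ⟨_, rfl⟩
  rw [← hXd] at hX ⊢
  have hX0 : 0 < X := by linarith
  have h1 : ∀ p ∈ QX X, ((∑ i ∈ Finset.range J, rc (K / q ^ (a + i)) p) * Real.log p) ^ 2 / (p:ℝ) ≤
      (2 / 3 * (q / (q - 1))) ^ 2 * X * (Real.log p / p) := by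
    intro p hp
    obtain ⟨hp1, hp2⟩ := mem_QX.1 hp
    have hl : 0 ≤ Real.log p := Real.log_natCast_nonneg p
    have hp0 : (0:ℝ) < p := by exact_mod_cast hp1.pos
    have h3 : 0 ≤ ∑ i ∈ Finset.range J, rc (K / q ^ (a + i)) p :=
      Finset.sum_nonneg fun i _ => rc_nonneg (by positivity) p
    have h2 : (∑ i ∈ Finset.range J, rc (K / q ^ (a + i)) p) ^ 2 ≤ (2 / 3 * (q / (q - 1))) ^ 2 :=
      pow_le_pow_left₀ h3 (rsum_le hq hK a J p) 2
    calc ((∑ i ∈ Finset.range J, rc (K / q ^ (a + i)) p) * Real.log p) ^ 2 / (p:ℝ) =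
        (∑ i ∈ Finset.range J, rc (K / q ^ (a + i)) p) ^ 2 * (Real.log p * Real.log p / p) := by ring
      _ ≤ (2 / 3 * (q / (q - 1))) ^ 2 * (X * Real.log p / p) := by gcongr
      _ = _ := by ring
  refine (Finset.sum_le_sum h1).trans ?_
  rw [← Finset.mul_sum]
  calc (2 / 3 * (q / (q - 1))) ^ 2 * X * ∑ p ∈ QX X, Real.log p / p ≤ (2 / 3 * (q / (q - 1))) ^ 2 * X * (X + E) := by
        have := hs X hX0.le
        gcongr
    _ ≤ (2 / 3 * (q / (q - 1))) ^ 2 * X * ((1 + 2 * E) * X) := by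
        have : X + E ≤ (1 + 2 * E) * X := by nlinarith
        gcongr
    _ = _ := by ring

/-- variation of the squares, one scale -/
theorem sq_vary : ∃ E : ℝ, 0 < E ∧ ∀ X t u s : ℝ, 0 < X → |u - t| ≤ s →
    |(DP (QX (X / 2)) (rq X) (2 * u)).re - (DP (QX (X / 2)) (rq X) (2 * t)).re| ≤ s * (X + 2 * E) := by
  obtain ⟨E, hE, hs⟩ := mert_small
  refine ⟨E, hE, fun X t u s hX hu => ?_⟩
  have hs0 : 0 ≤ s := (abs_nonneg _).trans hu
  have hpos : ∀ p ∈ QX (X / 2), 0 < p := fun p hp => (mem_QX.1 hp).1.pos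
  rw [DP_re _ hpos, DP_re _ hpos, ← Finset.sum_sub_distrib]
  refine (Finset.abs_sum_le_sum_abs _ _).trans ?_
  have h1 : ∀ p ∈ QX (X / 2), |rq X p / √p * Real.cos (2 * u * Real.log p) - rq X p / √p * Real.cos (2 * t * Real.log p)| ≤
      2 * s * (Real.log p / p) := by
    intro p hp
    obtain ⟨hp1, hp2⟩ := mem_QX.1 hp
    have hl : 0 ≤ Real.log p := Real.log_natCast_nonneg p
    have hp0 : (0:ℝ) < p := by exact_mod_cast hp1.pos
    obtain ⟨r1, r2⟩ := rq_bd hX hp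
    have h2 : |Real.cos (2 * u * Real.log p) - Real.cos (2 * t * Real.log p)| ≤ 2 * s * Real.log p := by
      have h3 := Real.abs_cos_sub_cos_le (2 * u * Real.log p) (2 * t * Real.log p)
      refine h3.trans ?_
      have h4 : 2 * u * Real.log p - 2 * t * Real.log p = 2 * (u - t) * Real.log p := by ring
      rw [h4, abs_mul, abs_mul, abs_of_nonneg hl, abs_of_pos (by norm_num : (0:ℝ) < 2)]
      gcongr
    rw [← mul_sub, abs_mul, abs_of_nonneg (by positivity)]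
    have h5 : rq X p / √p ≤ 2 / X * (Real.log p / p) := by
      calc rq X p / √p ≤ 2 / X * (Real.log p / √p) / √p := by gcongr
        _ = 2 / X * (Real.log p / (√p * √p)) := by
            field_simp
        _ = _ := by rw [Real.mul_self_sqrt hp0.le]
    have h6 : Real.log p / (X / 2) ≤ 1 := (div_le_one (by positivity)).2 hp2
    calc rq X p / √p * |Real.cos (2 * u * Real.log p) - Real.cos (2 * t * Real.log p)| ≤
        2 / X * (Real.log p / p) * (2 * s * Real.log p) := mul_le_mul h5 h2 (abs_nonneg _) (by positivity)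
      _ = 2 * s * (Real.log p / p) * (Real.log p / (X / 2)) := by
          field_simp
      _ ≤ 2 * s * (Real.log p / p) * 1 := by gcongr
      _ = _ := mul_one _
  refine (Finset.sum_le_sum h1).trans ?_
  rw [← Finset.mul_sum]
  have h7 := hs (X / 2) (by positivity)
  calc 2 * s * ∑ p ∈ QX (X / 2), Real.log p / p ≤ 2 * s * (X / 2 + E) := by gcongr
    _ = _ := by ring

/-- The squares at a point. -/
theorem sq_tail : ∃ T₀ : ℝ, ∀ T L : ℝ, T₀ ≤ T → 1 ≤ L → ∀ (Q : Finset ℕ) (r : ℕ → ℝ) (k : ℕ), (∀ p ∈ Q, p.Prime ∧ (p : ℝ) ≤ L) →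
    L ^ k ≤ T ^ (1 / 4 : ℝ) → ∀ V : ℝ, 0 < V →
    volume {t : ℝ | t ∈ JJ T ∧ V ≤ ‖DP Q r (2 * t)‖} ≤
      ENNReal.ofReal (8 * k.factorial * ((∑ p ∈ Q, r p ^ 2 / p) / V ^ 2) ^ k * T) := by
  obtain ⟨T0, h⟩ := mom_tail
  refine ⟨max T0 1, fun T L hT hL Q r k hQ hLk V hV => ?_⟩
  have hT1 : 1 ≤ T := (le_max_right _ _).trans hT
  have hT0 : T0 ≤ 2 * T := by
    have := (le_max_left _ _).trans hT
    linarith
  have h1 := h (2 * T) L hT0 hL Q r k hQ (hLk.trans (Real.rpow_le_rpow (by linarith) (by linarith) (by norm_num))) V hV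
  obtain ⟨S, hS⟩ : ∃ S : Set ℝ, S = {t : ℝ | t ∈ JJ (2 * T) ∧ V ≤ ‖DP Q r t‖} := ⟨_, rfl⟩
  have h2 : {t : ℝ | t ∈ JJ T ∧ V ≤ ‖DP Q r (2 * t)‖} = (fun t => 2 * t) ⁻¹' S := by
    ext t
    rw [hS]
    show (t ∈ JJ T ∧ V ≤ ‖DP Q r (2 * t)‖) ↔ (2 * t ∈ JJ (2 * T) ∧ V ≤ ‖DP Q r (2 * t)‖)
    unfold JJ
    rw [mem_Icc, mem_Icc]
    constructor
    · rintro ⟨⟨a, b⟩, c⟩
      exact ⟨⟨by linarith, by linarith⟩, c⟩
    · rintro ⟨⟨a, b⟩, c⟩
      exact ⟨⟨by linarith, by linarith⟩, c⟩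
  rw [h2, Real.volume_preimage_mul_left (by norm_num), hS]
  have h3 : ENNReal.ofReal |(2:ℝ)⁻¹| ≤ 1 := by
    rw [ENNReal.ofReal_le_one, abs_of_pos (by norm_num)]
    norm_num
  calc ENNReal.ofReal |(2:ℝ)⁻¹| * volume {t : ℝ | t ∈ JJ (2 * T) ∧ V ≤ ‖DP Q r t‖} ≤
      1 * volume {t : ℝ | t ∈ JJ (2 * T) ∧ V ≤ ‖DP Q r t‖} := by gcongr
    _ ≤ _ := by
        rw [one_mul]
        refine h1.trans (ENNReal.ofReal_le_ofReal (le_of_eq ?_))
        ring

end Pool.Agent.Helper82.NS
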